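import Pool.Agent.Lib.JackTab.C9p4

/-!
The certificate up to degree 9.
-/

namespace Pool.Agent.JackTab.D9

theorem c7 : covB dat [l0, l1, l2, l3, l4] = true := by decide +kernel

/-- The certificate up to degree 9. -/
theorem cert : Cert dat := by
  refine cert_of_lists dat _ c1 c2 c3 c4 c5 c6 c7 ?_
  intro ns h
  simp only [List.mem_cons, List.not_mem_nil, or_false] at h
  rcases h with rfl | rfl | rfl | rfl | rfl
  · exact p0
  · exact p1
  · exact p2
  · exact p3
  · exact p4

end Pool.Agent.JackTab.D9
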