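import Mathlib

/-!
List operations written with recursors, for evaluation by the kernel.
-/

namespace Pool.Agent.JackTab

/-- List access with a default value. -/
noncomputable def nth {α : Type} (d : α) (l : List α) : ℕ → α :=
  List.rec (fun _ => d) (fun a _ ih i => Nat.casesOn i a ih) l

/-- Sum of a function over a list. -/
noncomputable def sumL {α : Type} (f : α → ℕ) (l : List α) : ℕ :=
  List.rec 0 (fun a _ ih => Nat.add (f a) ih) l

/-- Dot product. -/
noncomputable def dot (u : List ℕ) : List ℕ → ℕ :=
  List.rec (fun _ => 0)
    (fun a _ ih v => List.casesOn v 0 (fun b v' => Nat.add (Nat.mul a b) (ih v'))) u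

/-- Map. -/
noncomputable def mapL {α β : Type} (f : α → β) (l : List α) : List β :=
  List.rec [] (fun a _ ih => List.cons (f a) ih) l

/-- Append. -/
noncomputable def appL {α : Type} (u v : List α) : List α :=
  List.rec v (fun a _ ih => List.cons a ih) u

/-- Zip with a function. -/
noncomputable def zipL {α β γ : Type} (f : α → β → γ) (u : List α) : List β → List γ :=
  List.rec (fun _ => [])
    (fun a _ ih v => List.casesOn v [] (fun b v' => List.cons (f a b) (ih v'))) u

/-- All elements satisfy a test. -/
noncomputable def allL {α : Type} (f : α → Bool) (l : List α) : Bool :=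
  List.rec true (fun a _ ih => cond (f a) ih false) l

/-- The factorial. -/
noncomputable def fac (n : ℕ) : ℕ := Nat.rec 1 (fun n ih => Nat.mul (Nat.succ n) ih) n

theorem beq_iff {a b : ℕ} : Nat.beq a b = true ↔ a = b := by rw [Nat.beq_eq]

theorem ble_iff {a b : ℕ} : Nat.ble a b = true ↔ a ≤ b := by rw [Nat.ble_eq]

theorem sumL_eq {α : Type} (f : α → ℕ) (l : List α) : sumL f l = (l.map f).sum := by
  induction l with
  | nil => rfl
  | cons a l ih =>
    rw [List.map_cons, List.sum_cons, ← ih]
    rfl

theorem mapL_eq {α β : Type} (f : α → β) (l : List α) : mapL f l = l.map f := by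
  induction l with
  | nil => rfl
  | cons a l ih =>
    rw [List.map_cons, ← ih]
    rfl

theorem appL_eq {α : Type} (u v : List α) : appL u v = u ++ v := by
  induction u with
  | nil => rfl
  | cons a l ih =>
    rw [List.cons_append, ← ih]
    rfl

theorem zipL_eq {α β γ : Type} (f : α → β → γ) (u : List α) (v : List β) :
    zipL f u v = List.zipWith f u v := by
  induction u generalizing v with
  | nil => rfl
  | cons a u ih =>
    cases v with
    | nil => rfl
    | cons b v =>
      rw [List.zipWith_cons_cons, ← ih]
      rfl

theorem dot_eq (u v : List ℕ) : dot u v = (List.zipWith (fun a b => a * b) u v).sum := by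
  induction u generalizing v with
  | nil => rfl
  | cons a u ih =>
    cases v with
    | nil => rfl
    | cons b v =>
      rw [List.zipWith_cons_cons, List.sum_cons, ← ih]
      rfl

theorem nth_eq {α : Type} (d : α) (l : List α) (i : ℕ) : nth d l i = l.getD i d := by
  induction l generalizing i with
  | nil => rfl
  | cons a l ih =>
    cases i with
    | zero => rfl
    | succ i =>
      rw [List.getD_cons_succ, ← ih]
      rfl

theorem allL_eq {α : Type} (f : α → Bool) (l : List α) : allL f l = true ↔ ∀ a ∈ l, f a = true := by
  induction l with
  | nil => simp [allL]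
  | cons a l ih =>
    have h : allL f (a :: l) = cond (f a) (allL f l) false := rfl
    rw [h, List.forall_mem_cons, ← ih]
    cases f a <;> simp

theorem fac_eq (n : ℕ) : fac n = n.factorial := by
  induction n with
  | zero => rfl
  | succ n ih =>
    rw [Nat.factorial_succ, ← ih]
    rfl

/-! Lists indexed by a range. -/

section
variable {α β γ : Type} (p : ℕ)

theorem nth_range (d : α) (f : ℕ → α) {i : ℕ} (hi : i < p) :
    nth d ((List.range p).map f) i = f i := by
  rw [nth_eq, List.getD_eq_getElem _ _ (by simpa using hi)]
  simp

theorem mapL_range (g : α → β) (f : ℕ → α) :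
    mapL g ((List.range p).map f) = (List.range p).map fun i => g (f i) := by
  rw [mapL_eq, List.map_map]
  rfl

theorem zipWith_range (g : α → β → γ) (f : ℕ → α) (f' : ℕ → β) :
    List.zipWith g ((List.range p).map f) ((List.range p).map f') =
      (List.range p).map fun i => g (f i) (f' i) := by
  rw [List.zipWith_map]
  exact List.zipWith_self

theorem zipL_range (g : α → β → γ) (f : ℕ → α) (f' : ℕ → β) :
    zipL g ((List.range p).map f) ((List.range p).map f') =
      (List.range p).map fun i => g (f i) (f' i) := by
  rw [zipL_eq, zipWith_range]

theorem sum_range_list {M : Type*} [AddCommMonoid M] (f : ℕ → M) :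
    ((List.range p).map f).sum = ∑ i ∈ Finset.range p, f i := rfl

theorem dot_range (f g : ℕ → ℕ) :
    dot ((List.range p).map f) ((List.range p).map g) = ∑ i ∈ Finset.range p, f i * g i := by
  rw [dot_eq, zipWith_range, sum_range_list]

theorem sumL_range (g : α → ℕ) (f : ℕ → α) :
    sumL g ((List.range p).map f) = ∑ i ∈ Finset.range p, g (f i) := by
  rw [sumL_eq, List.map_map, ← sum_range_list]
  rfl

theorem list_eq_range (d : α) (l : List α) (h : l.length = p) :
    l = (List.range p).map fun i => nth d l i := by
  subst h
  apply List.ext_getElem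
  · simp
  · intro i h1 h2
    simp [nth_eq, h1]

end

end Pool.Agent.JackTab
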