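import Pool.Agent.Lib.JackTab.Cert
import Pool.Agent.Lib.JackTab.D9

/-!
Checks up to degree 9: combinatorial data and bounds.
-/

namespace Pool.Agent.JackTab.D9

theorem c1 : shapeB dat = true := by decide +kernel
theorem c2 : spB dat = true := by decide +kernel
theorem c3 : unB dat = true := by decide +kernel
theorem c4 : factsB dat = true := by decide +kernel
theorem c5 : boundB dat = true := by decide +kernel

end Pool.Agent.JackTab.D9
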