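import Pool.Agent.Lib.JackTab.C9a

/-!
Checks up to degree 9: Jack tables.
-/

namespace Pool.Agent.JackTab.D9

theorem c6 : allL (fun n => jfB dat (Nat.succ n)) (rng dat.N) = true := by decide +kernel

end Pool.Agent.JackTab.D9
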