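import Pool.Agent.Lib.JackTab.C9b

/-!
Checks up to degree 9: product identity, part 0.
-/

namespace Pool.Agent.JackTab.D9

def l0 : List (ℕ × List ℕ) := [(1, [0]), (2, [0, 1]), (3, [0, 1, 2]), (4, [0, 1, 2, 3, 4]), (5, [0, 1, 2, 3, 4, 5, 6]), (6, [0, 1, 2, 3, 4, 5, 6, 7, 8, 9, 10]), (7, [0, 1, 2, 3, 4, 5, 6, 7, 8, 9, 10, 11, 12, 13, 14]), (8, [0, 1, 2, 3, 4, 5, 6, 7, 8, 9, 10, 11, 12, 13, 14, 15, 16, 17, 18, 19, 20, 21])]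

theorem p0 : prodB dat l0 = true := by decide +kernel

end Pool.Agent.JackTab.D9
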