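import Pool.Agent.Lib.JackTab.C9p0

/-!
Checks up to degree 9: product identity, part 1.
-/

namespace Pool.Agent.JackTab.D9

def l1 : List (ℕ × List ℕ) := [(9, [0, 1, 2, 3, 4, 5, 6, 7])]

theorem p1 : prodB dat l1 = true := by decide +kernel

end Pool.Agent.JackTab.D9
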