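import Pool.Agent.Lib.JackTab.C9p1

/-!
Checks up to degree 9: product identity, part 2.
-/

namespace Pool.Agent.JackTab.D9

def l2 : List (ℕ × List ℕ) := [(9, [8, 9, 10, 11, 12, 13, 14, 15])]

theorem p2 : prodB dat l2 = true := by decide +kernel

end Pool.Agent.JackTab.D9
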