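import Pool.Agent.Lib.JackTab.C9p2

/-!
Checks up to degree 9: product identity, part 3.
-/

namespace Pool.Agent.JackTab.D9

def l3 : List (ℕ × List ℕ) := [(9, [16, 17, 18, 19, 20, 21, 22, 23])]

theorem p3 : prodB dat l3 = true := by decide +kernel

end Pool.Agent.JackTab.D9
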