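import Pool.Agent.Lib.JackTab.C9p3

/-!
Checks up to degree 9: product identity, part 4.
-/

namespace Pool.Agent.JackTab.D9

def l4 : List (ℕ × List ℕ) := [(9, [24, 25, 26, 27, 28, 29])]

theorem p4 : prodB dat l4 = true := by decide +kernel

end Pool.Agent.JackTab.D9
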