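import Pool.Agent.Lib.JackTab.Main

/-!
The certificate of all checks.
-/

namespace Pool.Agent.JackTab

/-- The bounds in all degrees. -/
noncomputable def boundB (D : Dat) : Bool :=
  (fun T1 T2 => allL (fun n =>
    bchk D D.b (Nat.succ n) D.B (nth 0 T1 (Nat.sub D.N (Nat.succ n))) &&
    bchk D 1 (Nat.succ n) D.b (nth 0 T2 (Nat.sub D.N (Nat.succ n)))) (rng D.N))
    (tots (Nat.succ D.b) (mapL (fun a => htot D D.b (Nat.succ a)) (rng D.N)) D.N)
    (tots 2 (mapL (fun a => htot D 1 (Nat.succ a)) (rng D.N)) D.N)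

theorem nth_tots {D : Dat} (hD : Good D) (b : ℕ) {n : ℕ} (hn : n ≤ D.N) :
    nth 0 (tots (b + 1) (mapL (fun a => htot D b (Nat.succ a)) (rng D.N)) D.N) (D.N - n) =
      ttot D b n := by
  rw [mapL_eq, rng_eq]
  change nth 0 (tots (b + 1) ((List.range D.N).map fun a => htot D b (a + 1)) D.N) (D.N - n) = _
  rw [tots_eq hD b D.N le_rfl, nth_range _ _ _ (by omega : D.N - n < D.N + 1)]
  have h : D.N - (D.N - n) = n := by omega
  rw [h]

/-- The product identity in degree `n` for the rows in a list. -/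
noncomputable def prodB (D : Dat) (ns : List (ℕ × List ℕ)) : Bool :=
  (fun TT => allL (fun r : ℕ × List ℕ =>
    jchk D D.b D.B r.1 (nth [] TT (Nat.sub D.N r.1)) r.2) ns) (allT D D.b D.B)

theorem nth_allT {D : Dat} (hD : Good D) (b B : ℕ) {n : ℕ} (hn : n ≤ D.N) :
    nth [] (allT D b B) (D.N - n) = tab2 n (tv D b B n) := by
  rw [allT_eq hD, nth_range _ _ _ (by omega : D.N - n < D.N + 1)]
  have h : D.N - (D.N - n) = n := by omega
  rw [h]

/-- All rows in all degrees. -/
noncomputable def allRows (D : Dat) : List (ℕ × List ℕ) :=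
  mapL (fun n => (Nat.succ n, rng (List.length (nth [] D.P (Nat.succ n))))) (rng D.N)

theorem cert_of (D : Dat) (h1 : shapeB D = true) (h2 : spB D = true) (h3 : unB D = true)
    (h4 : factsB D = true) (h5 : boundB D = true)
    (h6 : ∀ n, 1 ≤ n → n ≤ D.N → jfB D n = true)
    (h7 : ∀ n, 1 ≤ n → n ≤ D.N → ∀ th < pn n, ∃ ns ths, prodB D ns = true ∧ (n, ths) ∈ ns ∧ th ∈ ths) :
    Cert D := by
  have hG := good_of D h1 h2 h3
  have hF := facts_of D hG.toShape h4
  refine ⟨hG, hF, fun n hn hn' => jf_of hG.toShape hn' (h6 n hn hn'), ?_⟩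
  intro n hn hn' th hth m hm k hk
  obtain ⟨ns, ths, h8, h9, h10⟩ := h7 n hn hn' th hth
  obtain ⟨n, rfl⟩ := Nat.exists_eq_add_of_le' hn
  have h11 : jchk D D.b D.B (n + 1) (tab2 (n + 1) (tv D D.b D.B (n + 1))) ths = true := by
    rw [prodB] at h8
    change allL _ ns = true at h8
    rw [allL_eq] at h8
    have h12 := h8 _ h9
    rw [← nth_allT hG D.b D.B hn']
    exact h12
  rw [boundB] at h5
  change allL _ (rng D.N) = true at h5
  rw [allL_rng] at h5
  have h13 := h5 n (by omega)
  rw [Bool.and_eq_true] at h13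
  refine prod_of hG hF hn' h11 ?_ ?_ th h10 hth m hm k hk
  · change bchk D D.b (n + 1) D.B (ttot D D.b (n + 1)) = true
    rw [← nth_tots hG D.b hn']
    exact h13.1
  · change bchk D 1 (n + 1) D.b (ttot D 1 (n + 1)) = true
    rw [← nth_tots hG 1 hn']
    exact h13.2

/-- Every row is in one of the lists. -/
noncomputable def covB (D : Dat) (Ls : List (List (ℕ × List ℕ))) : Bool :=
  allL (fun n => allL (fun th => anyL (fun ns => anyL (fun r : ℕ × List ℕ =>
    Nat.beq r.1 (Nat.succ n) && anyL (fun x => Nat.beq x th) r.2) ns) Ls)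
    (rng (List.length (nth [] D.P (Nat.succ n))))) (rng D.N)

/-- The certificate with several lists of rows. -/
theorem cert_of_lists (D : Dat) (Ls : List (List (ℕ × List ℕ))) (h1 : shapeB D = true)
    (h2 : spB D = true) (h3 : unB D = true) (h4 : factsB D = true) (h5 : boundB D = true)
    (h6 : allL (fun n => jfB D (Nat.succ n)) (rng D.N) = true)
    (h7 : covB D Ls = true) (h8 : ∀ ns ∈ Ls, prodB D ns = true) : Cert D := by
  have hS := shape_of D h1
  refine cert_of D h1 h2 h3 h4 h5 ?_ ?_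
  · intro n hn hn'
    obtain ⟨n, rfl⟩ := Nat.exists_eq_add_of_le' hn
    rw [allL_rng] at h6
    exact h6 n (by omega)
  · intro n hn hn' th hth
    obtain ⟨n, rfl⟩ := Nat.exists_eq_add_of_le' hn
    rw [covB, allL_rng] at h7
    have h9 := h7 n (by omega)
    rw [allL_rng] at h9
    have h10 := h9 th (by rw [nth_eq, hS.P _ hn']; exact hth)
    rw [anyL_eq] at h10
    obtain ⟨ns, hns, h11⟩ := h10
    rw [anyL_eq] at h11
    obtain ⟨r, hr, h12⟩ := h11
    rw [Bool.and_eq_true, beq_iff, anyL_eq] at h12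
    obtain ⟨h13, x, hx, h14⟩ := h12
    rw [beq_iff] at h14
    subst h14
    refine ⟨ns, r.2, h8 ns hns, ?_, hx⟩
    have h15 : r = (n + 1, r.2) := Prod.ext h13 rfl
    rw [← h15]
    exact hr

/-- The certificate with all rows in one list. -/
theorem cert_of_all (D : Dat) (h1 : shapeB D = true) (h2 : spB D = true) (h3 : unB D = true)
    (h4 : factsB D = true) (h5 : boundB D = true)
    (h6 : allL (fun n => jfB D (Nat.succ n)) (rng D.N) = true)
    (h7 : prodB D (allRows D) = true) : Cert D := by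
  have hS := shape_of D h1
  refine cert_of D h1 h2 h3 h4 h5 ?_ ?_
  · intro n hn hn'
    obtain ⟨n, rfl⟩ := Nat.exists_eq_add_of_le' hn
    rw [allL_rng] at h6
    exact h6 n (by omega)
  · intro n hn hn' th hth
    obtain ⟨n, rfl⟩ := Nat.exists_eq_add_of_le' hn
    refine ⟨allRows D, rng (List.length (nth [] D.P (Nat.succ n))), h7, ?_, ?_⟩
    · rw [allRows, mapL_eq, List.mem_map]
      exact ⟨n, by rw [rng_eq]; exact List.mem_range.2 (by omega), rfl⟩
    · rw [rng_eq, nth_eq, hS.P _ hn']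
      exact List.mem_range.2 hth

end Pool.Agent.JackTab
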