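import Mathlib

/-!
Enumeration of the partitions of `n` by weakly decreasing lists.
-/

namespace Pool.Agent.JackTab

/-- Partitions of `n` with parts at most `m`, as weakly decreasing lists, in lexicographic
order. -/
def plist : ℕ → ℕ → List (List ℕ)
  | 0, n => if n = 0 then [[]] else []
  | m + 1, n => (List.range (n / (m + 1) + 1)).flatMap fun j =>
      (plist m (n - j * (m + 1))).map fun l => List.replicate j (m + 1) ++ l

theorem split_top (M : ℕ) : ∀ l : List ℕ, l.Pairwise (fun a b => b ≤ a) → (∀ x ∈ l, x ≤ M) →
    List.replicate (l.count M) M ++ l.filter (fun x => decide (x ≠ M)) = l := by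
  intro l
  induction l with
  | nil => intro _ _; rfl
  | cons a l ih =>
    intro h1 h2
    rw [List.pairwise_cons] at h1
    by_cases ha : a = M
    · subst ha
      have h3 := ih h1.2 (fun x hx => h2 x (List.mem_cons_of_mem _ hx))
      rw [List.count_cons_self, List.replicate_succ, List.cons_append,
        List.filter_cons_of_neg (by simp), h3]
    · have h3 : ∀ x ∈ l, x ≠ M := by
        intro x hx
        have h4 := h1.1 x hx
        have h5 := h2 a (by simp)
        omega
      have h4 : l.count M = 0 := List.count_eq_zero.2 (fun h => h3 M h rfl)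
      rw [List.count_cons_of_ne (by simpa using ha), h4, List.replicate_zero, List.nil_append,
        List.filter_cons_of_pos (by simpa using ha), List.filter_eq_self.2]
      intro x hx
      simpa using h3 x hx

theorem mem_plist (m : ℕ) : ∀ (n : ℕ) (l : List ℕ),
    l ∈ plist m n ↔ l.Pairwise (fun a b => b ≤ a) ∧ (∀ x ∈ l, 0 < x ∧ x ≤ m) ∧ l.sum = n := by
  induction m with
  | zero =>
    intro n l
    by_cases hn : n = 0
    · subst hn
      simp only [plist, if_true, List.mem_singleton]
      constructor
      · rintro rfl
        simp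
      · rintro ⟨_, h, _⟩
        cases l with
        | nil => rfl
        | cons a l =>
          have := h a (by simp)
          omega
    · simp only [plist, hn, if_false, List.not_mem_nil, false_iff]
      rintro ⟨_, h, h2⟩
      cases l with
      | nil => exact hn (by simpa using h2.symm)
      | cons a l =>
        have := h a (by simp)
        omega
  | succ m ih =>
    intro n l
    simp only [plist, List.mem_flatMap, List.mem_range, List.mem_map]
    constructor
    · rintro ⟨j, hj, r, hr, rfl⟩
      obtain ⟨h1, h2, h3⟩ := (ih _ _).1 hr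
      have hjn : j * (m + 1) ≤ n := by
        have : j ≤ n / (m + 1) := by omega
        calc j * (m + 1) ≤ n / (m + 1) * (m + 1) := Nat.mul_le_mul_right _ this
          _ ≤ n := Nat.div_mul_le_self n (m + 1)
      refine ⟨?_, ?_, ?_⟩
      · rw [List.pairwise_append]
        refine ⟨List.pairwise_replicate.2 (Or.inr le_rfl), h1, ?_⟩
        intro a ha b hb
        rw [List.mem_replicate] at ha
        have := (h2 b hb).2
        omega
      · intro x hx
        rw [List.mem_append, List.mem_replicate] at hx
        rcases hx with ⟨_, rfl⟩ | hx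
        · omega
        · have := h2 x hx
          omega
      · rw [List.sum_append, List.sum_replicate, h3, smul_eq_mul]
        omega
    · rintro ⟨h1, h2, h3⟩
      have hs := split_top (m + 1) l h1 (fun x hx => (h2 x hx).2)
      have hsum : l.count (m + 1) * (m + 1) +
          (l.filter (fun x => decide (x ≠ m + 1))).sum = n := by
        rw [← h3]
        conv_rhs => rw [← hs]
        rw [List.sum_append, List.sum_replicate, smul_eq_mul]
      refine ⟨l.count (m + 1), ?_, l.filter (fun x => decide (x ≠ m + 1)), ?_, hs⟩
      · have : l.count (m + 1) * (m + 1) ≤ n := by omega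
        have := (Nat.le_div_iff_mul_le (Nat.succ_pos m)).2 this
        exact Nat.lt_succ_of_le this
      · rw [ih]
        refine ⟨h1.filter _, ?_, by omega⟩
        intro x hx
        rw [List.mem_filter] at hx
        have h4 := h2 x hx.1
        have h5 : x ≠ m + 1 := by simpa using hx.2
        omega

theorem nodup_plist (m : ℕ) : ∀ n : ℕ, (plist m n).Nodup := by
  induction m with
  | zero =>
    intro n
    by_cases hn : n = 0 <;> simp [plist, hn]
  | succ m ih =>
    intro n
    simp only [plist]
    rw [List.nodup_flatMap]
    constructor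
    · intro j _
      refine (ih _).map ?_
      intro a b h
      exact List.append_cancel_left h
    · have hc : ∀ (j r : ℕ) (l : List ℕ), l ∈ (plist m r).map (fun l => List.replicate j (m + 1) ++ l) →
          l.count (m + 1) = j := by
        intro j r l hl
        rw [List.mem_map] at hl
        obtain ⟨s, hs, rfl⟩ := hl
        have h2 := ((mem_plist _ _ _).1 hs).2.1
        have h3 : s.count (m + 1) = 0 := List.count_eq_zero.2 (fun h => by
          have := (h2 _ h).2
          omega)
        rw [List.count_append, List.count_replicate_self, h3, add_zero]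
      refine List.Pairwise.imp ?_ (List.nodup_range (n := n / (m + 1) + 1))
      intro a b hab
      simp only [Function.onFun]
      intro l h1 h2
      exact hab ((hc _ _ _ h1).symm.trans (hc _ _ _ h2))

/-- The list of all partitions of `n`. -/
def pl (n : ℕ) : List (List ℕ) := plist n n

/-- The number of partitions of `n`. -/
def pn (n : ℕ) : ℕ := (pl n).length

/-- The partition with index `i`, as a list. -/
def pt (n i : ℕ) : List ℕ := (pl n).getD i []

theorem mem_pl {n : ℕ} {l : List ℕ} :
    l ∈ pl n ↔ l.Pairwise (fun a b => b ≤ a) ∧ (∀ x ∈ l, 0 < x) ∧ l.sum = n := by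
  rw [pl, mem_plist]
  constructor
  · rintro ⟨h1, h2, h3⟩
    exact ⟨h1, fun x hx => (h2 x hx).1, h3⟩
  · rintro ⟨h1, h2, h3⟩
    refine ⟨h1, fun x hx => ⟨h2 x hx, ?_⟩, h3⟩
    rw [← h3]
    exact List.single_le_sum (by simp) x hx

theorem pt_mem {n i : ℕ} (hi : i < pn n) : pt n i ∈ pl n := by
  have h : i < (pl n).length := hi
  rw [pt, List.getD_eq_getElem _ _ h]
  exact List.getElem_mem h

theorem pt_inj {n i j : ℕ} (hi : i < pn n) (hj : j < pn n) (h : (pt n i : Multiset ℕ) = pt n j) :
    i = j := by
  have h1 := pt_mem hi
  have h2 := pt_mem hj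
  have h3 : pt n i = pt n j := by
    have hp : (pt n i).Perm (pt n j) := Multiset.coe_eq_coe.1 h
    exact hp.eq_of_pairwise (fun a b _ _ hab hba => le_antisymm hba hab) (mem_pl.1 h1).1 (mem_pl.1 h2).1
  have hi' : i < (pl n).length := hi
  have hj' : j < (pl n).length := hj
  rw [pt, pt, List.getD_eq_getElem _ _ hi', List.getD_eq_getElem _ _ hj'] at h3
  exact (List.Nodup.getElem_inj_iff (nodup_plist n n)).1 h3

/-- The partition with index `i`. -/
def ptp (n : ℕ) (i : Fin (pn n)) : n.Partition where
  parts := pt n i
  parts_pos := by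
    intro x hx
    exact (mem_pl.1 (pt_mem i.2)).2.1 x hx
  parts_sum := by
    rw [Multiset.sum_coe]
    exact (mem_pl.1 (pt_mem i.2)).2.2

theorem ptp_bij (n : ℕ) : Function.Bijective (ptp n) := by
  constructor
  · intro i j h
    have h1 : (ptp n i).parts = (ptp n j).parts := by rw [h]
    exact Fin.ext (pt_inj i.2 j.2 h1)
  · intro l
    have h1 : l.parts.sort (fun a b => b ≤ a) ∈ pl n := by
      rw [mem_pl]
      refine ⟨Multiset.pairwise_sort _ _, ?_, ?_⟩
      · intro x hx
        exact l.parts_pos ((Multiset.mem_sort _).1 hx)
      · rw [← Multiset.sum_coe, Multiset.sort_eq, l.parts_sum]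
    obtain ⟨i, hi, h2⟩ := List.getElem_of_mem h1
    refine ⟨⟨i, hi⟩, ?_⟩
    apply Nat.Partition.ext
    change ((pt n i : List ℕ) : Multiset ℕ) = l.parts
    rw [pt, List.getD_eq_getElem _ _ hi, h2, Multiset.sort_eq]

/-- Partitions and their indices. -/
noncomputable def pe (n : ℕ) : Fin (pn n) ≃ n.Partition := Equiv.ofBijective (ptp n) (ptp_bij n)

theorem pe_parts (n : ℕ) (i : Fin (pn n)) : (pe n i).parts = (pt n i : Multiset ℕ) := rfl

theorem sum_pe {M : Type*} [AddCommMonoid M] (n : ℕ) (F : n.Partition → M) :
    ∑ l, F l = ∑ i : Fin (pn n), F (pe n i) := (Equiv.sum_comp (pe n) F).symm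

end Pool.Agent.JackTab
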