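import Pool.Agent.Lib.JackTab.Mono
import Pool.Agent.Lib.JackTab.Part

/-!
Coefficients of `psumPart` and `msymm` at the monomials given by partitions.
-/

open MvPolynomial

namespace Pool.Agent.JackTab

/-- The exponent vector with entries from a list. -/
noncomputable def dvec (N : ℕ) (l : List ℕ) : Fin N →₀ ℕ :=
  Finsupp.equivFunOnFinite.symm fun j => l.getD j 0

theorem dvec_apply (N : ℕ) (l : List ℕ) (j : Fin N) : dvec N l j = l.getD j 0 := rfl

theorem ofFn_dvec {N : ℕ} {l : List ℕ} (h : l.length ≤ N) :
    List.ofFn (dvec N l) = l ++ List.replicate (N - l.length) 0 := by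
  apply List.ext_getElem
  · simp
    omega
  · intro i h1 h2
    rw [List.getElem_ofFn, dvec_apply]
    by_cases hi : i < l.length
    · rw [List.getElem_append_left hi, List.getD_eq_getElem _ _ hi]
    · rw [List.getElem_append_right (by omega), List.getElem_replicate,
        List.getD_eq_default _ _ (by simpa using hi)]

/-- Expansion of a list of pairs (part, multiplicity). -/
def expand (L : List (ℕ × ℕ)) : List ℕ := L.flatMap fun s => List.replicate s.2 s.1

theorem PP_eq (N : ℕ) (K : Type*) [CommSemiring K] (L : List (ℕ × ℕ)) :
    PP N K L = ((expand L).map (psum (Fin N) K)).prod := by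
  induction L with
  | nil => rfl
  | cons s L ih =>
    have h : expand (s :: L) = List.replicate s.2 s.1 ++ expand L := rfl
    have h2 : PP N K (s :: L) = psum (Fin N) K s.1 ^ s.2 * PP N K L := by
      rw [PP, List.map_cons, List.prod_cons]
      rfl
    rw [h, h2, List.map_append, List.prod_append, ← ih, List.map_replicate, List.prod_replicate]

theorem pt_length_le {n i : ℕ} (hi : i < pn n) : (pt n i).length ≤ n := by
  obtain ⟨_, h2, h3⟩ := mem_pl.1 (pt_mem hi)
  calc (pt n i).length ≤ (pt n i).sum := List.length_le_sum_of_one_le _ h2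
    _ = n := h3

theorem coeff_psumPart {K : Type*} [CommSemiring K] (n : ℕ) (i j : Fin (pn n)) (L : List (ℕ × ℕ))
    (hL : expand L = pt n i) :
    coeff (dvec n (pt n j)) (psumPart (Fin n) K (pe n i)) =
      (Rc (pt n j ++ List.replicate (n - (pt n j).length) 0) L : K) := by
  have h1 : psumPart (Fin n) K (pe n i) = PP n K L := by
    rw [PP_eq, hL, psumPart, pe_parts, Multiset.map_coe, Multiset.prod_coe]
  rw [h1, coeff_PP, ofFn_dvec (pt_length_le j.2)]

theorem prod_X_eq {σ K : Type*} [DecidableEq σ] [CommSemiring K] (s : Multiset σ) :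
    (s.map (X : σ → MvPolynomial σ K)).prod = monomial (Multiset.toFinsupp s) 1 := by
  induction s using Multiset.induction_on with
  | empty => simp
  | cons a s ih =>
    rw [Multiset.map_cons, Multiset.prod_cons, ih, X, monomial_mul, one_mul,
      ← Multiset.singleton_add, map_add, Multiset.toFinsupp_singleton]

theorem coeff_msymm {K : Type*} [CommSemiring K] (n : ℕ) (m : n.Partition) (j : Fin (pn n)) :
    coeff (dvec n (pt n j)) (msymm (Fin n) K m) = if m = pe n j then 1 else 0 := by
  classical
  set d := dvec n (pt n j) with hd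
  have hcard : Multiset.card (Finsupp.toMultiset d) = n := by
    rw [Finsupp.card_toMultiset, Finsupp.sum_fintype _ _ (fun _ => rfl)]
    have h1 : ∑ i, d i = (List.ofFn d).sum := by rw [List.sum_ofFn]
    simp only [id]
    rw [h1, hd, ofFn_dvec (pt_length_le j.2), List.sum_append, List.sum_replicate, smul_zero,
      add_zero]
    exact (mem_pl.1 (pt_mem j.2)).2.2
  let s0 : Sym (Fin n) n := ⟨Finsupp.toMultiset d, hcard⟩
  have hs0 : Nat.Partition.ofSym s0 = pe n j := by
    apply Nat.Partition.ext
    rw [pe_parts]
    change (Finsupp.toMultiset d).dedup.map (Finsupp.toMultiset d).count = _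
    have h1 : (Finsupp.toMultiset d).dedup = d.support.val := by
      rw [← Finsupp.toFinset_toMultiset]
      rfl
    rw [h1]
    have h2 : (d.support.val).map (Finsupp.toMultiset d).count =
        ((Finset.univ : Finset (Fin n)).val.map d).filter (fun x => x ≠ 0) := by
      rw [Multiset.filter_map]
      have h3 : d.support = Finset.univ.filter (fun i => d i ≠ 0) := by
        ext i
        simp
      rw [h3, Finset.filter_val]
      apply Multiset.map_congr rfl
      intro i _
      exact Finsupp.count_toMultiset d i
    rw [h2]
    have h4 : ((Finset.univ : Finset (Fin n)).val.map d) = (List.ofFn d : Multiset ℕ) := by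
      rw [List.ofFn_eq_map, ← Multiset.map_coe]
      rfl
    rw [h4, hd, ofFn_dvec (pt_length_le j.2), Multiset.filter_coe, List.filter_append,
      List.filter_eq_self.2, List.filter_eq_nil_iff.2, List.append_nil]
    · intro x hx
      simp [(List.mem_replicate.1 hx).2]
    · intro x hx
      have := (mem_pl.1 (pt_mem j.2)).2.1 x hx
      simp
      omega
  rw [msymm, coeff_sum]
  simp_rw [prod_X_eq, coeff_monomial]
  by_cases hm : m = pe n j
  · rw [if_pos hm]
    rw [Finset.sum_eq_single (⟨s0, by rw [hs0, hm]⟩ : {a : Sym (Fin n) n // Nat.Partition.ofSym a = m})]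
    · rw [if_pos]
      change Multiset.toFinsupp (Finsupp.toMultiset d) = d
      exact Finsupp.toMultiset_toFinsupp d
    · intro b _ hb
      rw [if_neg]
      intro h
      apply hb
      apply Subtype.ext
      apply Subtype.ext
      change b.1.1 = Finsupp.toMultiset d
      rw [← h, Multiset.toFinsupp_toMultiset]
    · intro h
      exact absurd (Finset.mem_univ _) h
  · rw [if_neg hm]
    apply Finset.sum_eq_zero
    intro b _
    rw [if_neg]
    intro h
    apply hm
    rw [← b.2, ← hs0]
    congr 1
    apply Subtype.ext
    change b.1.1 = Finsupp.toMultiset d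
    rw [← h, Multiset.toFinsupp_toMultiset]

end Pool.Agent.JackTab
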