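import Pool.Agent.Lib.JackTab.Tab
import Pool.Agent.Lib.JackTab.Sym

/-!
Checks of the combinatorial data.
-/

namespace Pool.Agent.JackTab

theorem allL_rng {p : ℕ} {f : ℕ → Bool} : allL f (rng p) = true ↔ ∀ i < p, f i = true := by
  rw [allL_eq, rng_eq]
  simp only [List.mem_range]

noncomputable def ptK (D : Dat) (n i : ℕ) : List ℕ := nth [] (nth [] D.P n) i

noncomputable def ufK (D : Dat) (a m i j : ℕ) : ℕ := nth 0 (nth [] (nth [] (nth [] D.U a) m) i) j

theorem ufK_eq (D : Dat) (a m i j : ℕ) : ufK D a m i j = uf D a m i j := by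
  simp only [ufK, uf, nth_eq]

noncomputable def efK (D : Dat) (n i : ℕ) : ℕ := nth 0 (nth [] D.e n) i

theorem efK_eq (D : Dat) (n i : ℕ) : efK D n i = ef D n i := by
  simp only [efK, ef, nth_eq]

noncomputable def shapeB (D : Dat) : Bool :=
  Nat.beq (List.length D.S) (Nat.succ D.N) && allL (fun n =>
    decide (nth [] D.P n = pl n) && (fun p =>
      Nat.beq (List.length (nth [] D.e n)) p && Nat.beq (List.length (nth [] D.q n)) p &&
      Nat.beq (List.length (nth [] D.z n)) p && Nat.beq (List.length (nth [] D.l n)) p &&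
      Nat.beq (List.length (nth [] D.J n)) p && Nat.beq (List.length (nth [] D.H n)) p &&
      Nat.beq (List.length (nth [] D.S n)) p &&
      allL (fun i => Nat.beq (List.length (nth [] (nth [] D.H n) i)) p &&
        Nat.beq (List.length (nth [] (nth [] D.S n) i)) n) (rng p)) (pn n)) (rng (Nat.succ D.N))

theorem shape_of (D : Dat) (h : shapeB D = true) : Shape D := by
  rw [shapeB, Bool.and_eq_true, allL_rng] at h
  obtain ⟨h0, h⟩ := h
  have h' : ∀ n ≤ D.N, _ := fun n hn => h n (Nat.lt_succ_of_le hn)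
  simp only [Bool.and_eq_true, decide_eq_true_eq, beq_iff, allL_rng, nth_eq] at h'
  exact
    { P := fun n hn => (h' n hn).1
      e := fun n hn => (h' n hn).2.1.1.1.1.1.1.1
      q := fun n hn => (h' n hn).2.1.1.1.1.1.1.2
      z := fun n hn => (h' n hn).2.1.1.1.1.1.2
      l := fun n hn => (h' n hn).2.1.1.1.1.2
      J := fun n hn => (h' n hn).2.1.1.1.2
      H := fun n hn => (h' n hn).2.1.1.2
      H2 := fun n hn i hi => ((h' n hn).2.2 i hi).1
      S0 := beq_iff.1 h0
      S := fun n hn => (h' n hn).2.1.2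
      S2 := fun n hn i hi => ((h' n hn).2.2 i hi).2 }

noncomputable def flatL {α β : Type} (f : α → List β) (l : List α) : List β :=
  List.rec [] (fun a _ ih => appL (f a) ih) l

theorem flatL_eq {α β : Type} (f : α → List β) (l : List α) : flatL f l = l.flatMap f := by
  induction l with
  | nil => rfl
  | cons a l ih =>
    rw [List.flatMap_cons, ← ih, ← appL_eq]
    rfl

noncomputable def spcK (D : Dat) (pa pm a m i : ℕ) : List (ℕ × ℕ) :=
  flatL (fun x => flatL (fun y => cond (Nat.beq (ufK D a m x y) i) [(x, y)] []) (rng pm)) (rng pa)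

noncomputable def spB (D : Dat) : Bool :=
  allL (fun n => allL (fun a => allL (fun i =>
    decide (nth [] (nth [] (nth [] D.S n) i) a =
      spcK D (List.length (nth [] D.P (Nat.succ a))) (List.length (nth [] D.P (Nat.sub (Nat.sub n 1) a)))
        (Nat.succ a) (Nat.sub (Nat.sub n 1) a) i))
    (rng (List.length (nth [] D.P n)))) (rng n)) (rng (Nat.succ D.N))

noncomputable def unB (D : Dat) : Bool :=
  allL (fun a => allL (fun m => allL (fun i => allL (fun j =>
    (fun u => Nat.blt u (List.length (nth [] D.P (Nat.add a m))) &&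
      List.isPerm (ptK D (Nat.add a m) u) (appL (ptK D a i) (ptK D m j)) &&
      Nat.beq (efK D (Nat.add a m) u) (Nat.add (efK D a i) (efK D m j))) (ufK D a m i j))
    (rng (List.length (nth [] D.P m)))) (rng (List.length (nth [] D.P a))))
    (rng (Nat.succ (Nat.sub D.N a)))) (rng (Nat.succ D.N))

theorem blt_iff {a b : ℕ} : Nat.blt a b = true ↔ a < b := by
  rw [Nat.blt]
  exact ble_iff

theorem good_of (D : Dat) (h : shapeB D = true) (h1 : spB D = true) (h2 : unB D = true) : Good D := by
  have hS := shape_of D h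
  have hP : ∀ n ≤ D.N, List.length (nth [] D.P n) = pn n := by
    intro n hn
    rw [nth_eq, hS.P n hn]
    rfl
  have hpt : ∀ n ≤ D.N, ∀ i, ptK D n i = pt n i := by
    intro n hn i
    rw [ptK, nth_eq, nth_eq, hS.P n hn]
    rfl
  refine { toShape := hS, sp := ?_, ult := ?_, uperm := ?_, ue := ?_ }
  · intro n hn a ha i hi
    rw [spB, allL_rng] at h1
    have h3 := h1 n (Nat.lt_succ_of_le hn)
    rw [allL_rng] at h3
    have h4 := h3 a ha
    rw [allL_rng] at h4
    have h5 := h4 i (by rw [hP n hn]; exact hi)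
    rw [decide_eq_true_eq] at h5
    have e1 : Nat.sub (Nat.sub n 1) a = n - 1 - a := rfl
    rw [e1, hP _ (by omega), hP _ (by omega)] at h5
    simp only [nth_eq] at h5
    change (((D.S.getD n []).getD i []).getD a []) = _
    rw [h5]
    simp only [spcK, spc, flatL_eq, rng_eq, Nat.succ_eq_add_one]
    congr 1
    funext x
    congr 1
    funext y
    rw [ufK_eq]
    by_cases hu : uf D (a + 1) (n - 1 - a) x y = i
    · rw [if_pos hu, beq_iff.2 hu]
      rfl
    · rw [if_neg hu, Bool.eq_false_iff.2 (fun h => hu (beq_iff.1 h))]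
      rfl
  all_goals
    intro a m ham i hi j hj
    rw [unB, allL_rng] at h2
    have h3 := h2 a (by omega)
    rw [allL_rng] at h3
    have h4 := h3 m (by change m < D.N - a + 1; omega)
    rw [allL_rng] at h4
    have h5 := h4 i (by rw [hP a (by omega)]; exact hi)
    rw [allL_rng] at h5
    have h6 := h5 j (by rw [hP m (by omega)]; exact hj)
    rw [Bool.and_eq_true, Bool.and_eq_true, blt_iff, beq_iff, efK_eq, efK_eq, efK_eq, ufK_eq,
      List.isPerm_iff, appL_eq] at h6
    have e1 : Nat.add a m = a + m := rfl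
    rw [e1, hP _ ham, hpt _ ham, hpt _ (by omega), hpt _ (by omega)] at h6
  · exact h6.1.1
  · exact h6.1.2
  · exact h6.2

/-- Further facts about the data. -/
structure Facts (D : Dat) : Prop where
  z : ∀ n ≤ D.N, ∀ i < pn n, zf D n i =
    ∏ x ∈ Finset.range (n + 1), x ^ (pt n i).count x * ((pt n i).count x).factorial
  l : ∀ n ≤ D.N, ∀ i < pn n, lf D n i = (pt n i).length
  q : ∀ n ≤ D.N, ∀ i < pn n, ∀ x ≤ n, n ∣ x * (pt n i).count x * qf D n i
  one : ∀ n ≤ D.N, pt n 0 = List.replicate n 1
  e : ∀ n ≤ D.N, ∀ i < pn n, ∀ j < i, ef D n i ≠ ef D n j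
  dom : ∀ n ≤ D.N, ∀ r < pn n, ∀ th < r, ∃ k, ((pt n th).take k).sum < ((pt n r).take k).sum
  rl : ∀ n ≤ D.N, ∀ i < pn n, expand ((D.rl.getD n []).getD i []) = pt n i

/-- The product in the definition of `z`. -/
noncomputable def zK (l : List ℕ) (x : ℕ) : ℕ :=
  Nat.rec 1 (fun x ih => Nat.mul ih (Nat.mul (Nat.pow x (List.count x l)) (fac (List.count x l)))) x

theorem zK_eq (l : List ℕ) (x : ℕ) :
    zK l x = ∏ x ∈ Finset.range x, x ^ l.count x * (l.count x).factorial := by
  induction x with
  | zero => rfl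
  | succ x ih =>
    rw [Finset.prod_range_succ, ← ih, ← fac_eq]
    rfl

noncomputable def anyL {α : Type} (f : α → Bool) (l : List α) : Bool :=
  List.rec false (fun a _ ih => cond (f a) true ih) l

theorem anyL_eq {α : Type} (f : α → Bool) (l : List α) :
    anyL f l = true ↔ ∃ a ∈ l, f a = true := by
  induction l with
  | nil => simp [anyL]
  | cons a l ih =>
    have h : anyL f (a :: l) = cond (f a) true (anyL f l) := rfl
    rw [h]
    cases hf : f a
    · simp [ih, hf]
    · simp [hf]

noncomputable def factsB (D : Dat) : Bool :=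
  allL (fun n => decide (ptK D n 0 = List.replicate n 1) &&
    allL (fun i => (fun l =>
      Nat.beq (nth 0 (nth [] D.z n) i) (zK l (Nat.succ n)) &&
      Nat.beq (nth 0 (nth [] D.l n) i) (List.length l) &&
      allL (fun x => Nat.beq (Nat.mod (Nat.mul (Nat.mul x (List.count x l)) (nth 0 (nth [] D.q n) i)) n) 0)
        (rng (Nat.succ n)) &&
      allL (fun j => !(Nat.beq (efK D n i) (efK D n j)) && anyL (fun k =>
        Nat.blt (List.sum (List.take k (ptK D n j))) (List.sum (List.take k l))) (rng (Nat.succ n))) (rng i) &&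
      decide (expand (nth [] (nth [] D.rl n) i) = l)) (ptK D n i))
    (rng (List.length (nth [] D.P n)))) (rng (Nat.succ D.N))

theorem facts_of (D : Dat) (hS : Shape D) (h : factsB D = true) : Facts D := by
  have hP : ∀ n ≤ D.N, List.length (nth [] D.P n) = pn n := by
    intro n hn
    rw [nth_eq, hS.P n hn]
    rfl
  have hpt : ∀ n ≤ D.N, ∀ i, ptK D n i = pt n i := by
    intro n hn i
    rw [ptK, nth_eq, nth_eq, hS.P n hn]
    rfl
  rw [factsB, allL_rng] at h
  have h' : ∀ n ≤ D.N, _ := fun n hn => h n (Nat.lt_succ_of_le hn)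
  simp only [Bool.and_eq_true, allL_rng, decide_eq_true_eq] at h'
  have h1 : ∀ n ≤ D.N, ∀ i < pn n, _ := fun n hn i hi => (h' n hn).2 i (by rw [hP n hn]; exact hi)
  refine ⟨?_, ?_, ?_, ?_, ?_, ?_, ?_⟩
  · intro n hn i hi
    have h2 := (h1 n hn i hi).1.1.1.1
    rw [beq_iff, zK_eq, hpt n hn, nth_eq, nth_eq] at h2
    exact h2
  · intro n hn i hi
    have h2 := (h1 n hn i hi).1.1.1.2
    rw [beq_iff, hpt n hn, nth_eq, nth_eq] at h2
    exact h2
  · intro n hn i hi x hx
    have h2 := (h1 n hn i hi).1.1.2 x (Nat.lt_succ_of_le hx)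
    rw [beq_iff, hpt n hn, nth_eq, nth_eq] at h2
    exact Nat.dvd_of_mod_eq_zero h2
  · intro n hn
    have h2 := (h' n hn).1
    rw [hpt n hn] at h2
    exact h2
  · intro n hn i hi j hj he
    have h2 := ((h1 n hn i hi).1.2 j hj).1
    rw [efK_eq, efK_eq, beq_iff.2 he] at h2
    exact absurd h2 (by decide)
  · intro n hn r hr th hth
    have h2 := ((h1 n hn r hr).1.2 th hth).2
    rw [anyL_eq] at h2
    obtain ⟨k, _, h3⟩ := h2
    rw [blt_iff, hpt n hn, hpt n hn] at h3
    exact ⟨k, h3⟩
  · intro n hn i hi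
    have h2 := (h1 n hn i hi).2
    rw [hpt n hn, nth_eq, nth_eq] at h2
    exact h2

end Pool.Agent.JackTab
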