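import Pool.Agent.Lib.JackTab.Base

/-!
Coefficients of products of power sums at monomials.
-/

open MvPolynomial

namespace Pool.Agent.JackTab

/-- One choice in `usp`. -/
noncomputable def ustep (k mm r : ℕ) (ih : ℕ → List (List (ℕ × ℕ) × ℕ)) (j : ℕ) :
    List (List (ℕ × ℕ) × ℕ) :=
  cond (Nat.ble (Nat.mul k j) r)
    (mapL (fun q => (cond (Nat.beq (Nat.sub mm j) 0) q.1 (List.cons (k, Nat.sub mm j) q.1),
      Nat.mul (Nat.div (fac mm) (Nat.mul (fac j) (fac (Nat.sub mm j)))) q.2))
      (ih (Nat.sub r (Nat.mul k j)))) []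

/-- The choices `0, ..., f`. -/
noncomputable def uloop (k mm r : ℕ) (ih : ℕ → List (List (ℕ × ℕ) × ℕ)) (f : ℕ) :
    List (List (ℕ × ℕ) × ℕ) :=
  Nat.rec (ustep k mm r ih 0) (fun j acc => appL (ustep k mm r ih (Nat.succ j)) acc) f

/-- Ways to take a part of size `r` out of a multiset (given by pairs part, multiplicity):
the rest, with the number of ways. -/
noncomputable def usp (L : List (ℕ × ℕ)) : ℕ → List (List (ℕ × ℕ) × ℕ) :=
  List.rec (fun r => cond (Nat.beq r 0) [([], 1)] [])
    (fun km _ ih r => uloop km.1 km.2 r ih km.2) L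

/-- The coefficient of the monomial with exponents `rho` in the product of power sums. -/
noncomputable def Rc (rho : List ℕ) : List (ℕ × ℕ) → ℕ :=
  List.rec (fun L => cond (allL (fun q => Nat.beq q.2 0) L) 1 0)
    (fun r _ ih L => sumL (fun q => Nat.mul q.2 (ih q.1)) (usp L r)) rho

section
variable {A : Type*} [CommSemiring A] (x : ℕ → A)

theorem ustep_sum (k mm r : ℕ) (ih : ℕ → List (List (ℕ × ℕ) × ℕ)) (G : ℕ → A)
    (hG : ∀ r, ((ih r).map fun q => (q.2 : A) * (q.1.map fun s => x s.1 ^ s.2).prod).sum = G r)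
    (j : ℕ) (hj : j ≤ mm) :
    ((ustep k mm r ih j).map fun q => (q.2 : A) * (q.1.map fun s => x s.1 ^ s.2).prod).sum =
      if k * j ≤ r then (mm.choose j : A) * x k ^ (mm - j) * G (r - k * j) else 0 := by
  have hb : Nat.ble (Nat.mul k j) r = decide (k * j ≤ r) := by
    by_cases h : k * j ≤ r
    · rw [decide_eq_true h]; exact ble_iff.2 h
    · rw [decide_eq_false h]
      exact Bool.eq_false_iff.2 (fun h2 => h (ble_iff.1 h2))
  rw [ustep, hb]
  by_cases h : k * j ≤ r
  · rw [if_pos h, decide_eq_true h, cond_true, mapL_eq, List.map_map, ← hG, ← List.sum_map_mul_left]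
    congr 1
    apply List.map_congr_left
    intro q _
    have hc : Nat.div (fac mm) (Nat.mul (fac j) (fac (Nat.sub mm j))) = mm.choose j := by
      rw [fac_eq, fac_eq, fac_eq]
      exact (Nat.choose_eq_factorial_div_factorial hj).symm
    simp only [Function.comp]
    rw [hc]
    by_cases h0 : mm - j = 0
    · have hb2 : Nat.beq (Nat.sub mm j) 0 = true := beq_iff.2 h0
      rw [hb2, cond_true, h0, pow_zero]
      change ((mm.choose j * q.2 : ℕ) : A) * _ = _
      push_cast
      ring
    · have hb2 : Nat.beq (Nat.sub mm j) 0 = false :=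
        Bool.eq_false_iff.2 (fun h2 => h0 (beq_iff.1 h2))
      rw [hb2, cond_false, List.map_cons, List.prod_cons]
      change ((mm.choose j * q.2 : ℕ) : A) * (x k ^ (mm - j) * _) = _
      push_cast
      ring
  · rw [if_neg h, decide_eq_false h, cond_false, List.map_nil, List.sum_nil]

theorem uloop_sum (k mm r : ℕ) (ih : ℕ → List (List (ℕ × ℕ) × ℕ)) (G : ℕ → A)
    (hG : ∀ r, ((ih r).map fun q => (q.2 : A) * (q.1.map fun s => x s.1 ^ s.2).prod).sum = G r)
    (f : ℕ) (hf : f ≤ mm) :
    ((uloop k mm r ih f).map fun q => (q.2 : A) * (q.1.map fun s => x s.1 ^ s.2).prod).sum =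
      ∑ j ∈ Finset.range (f + 1),
        if k * j ≤ r then (mm.choose j : A) * x k ^ (mm - j) * G (r - k * j) else 0 := by
  induction f with
  | zero =>
    rw [Finset.sum_range_one, ← ustep_sum x k mm r ih G hG 0 (Nat.zero_le _)]
    rfl
  | succ f ihf =>
    have h : uloop k mm r ih (f + 1) = appL (ustep k mm r ih (Nat.succ f)) (uloop k mm r ih f) := rfl
    rw [h, appL_eq, List.map_append, List.sum_append, ihf (by omega),
      ustep_sum x k mm r ih G hG (f + 1) hf, Finset.sum_range_succ _ (f + 1), add_comm]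

theorem usp_sum (L : List (ℕ × ℕ)) (r : ℕ) :
    ((usp L r).map fun q => (q.2 : A) * (q.1.map fun s => x s.1 ^ s.2).prod).sum =
      ((L.map fun s : ℕ × ℕ => (Polynomial.X ^ s.1 + Polynomial.C (x s.1)) ^ s.2).prod).coeff r := by
  induction L generalizing r with
  | nil =>
    rw [List.map_nil, List.prod_nil, Polynomial.coeff_one]
    have h : usp [] r = cond (Nat.beq r 0) [([], 1)] [] := rfl
    rw [h]
    by_cases h0 : r = 0
    · subst h0
      simp
    · have hb : Nat.beq r 0 = false := Bool.eq_false_iff.2 (fun h2 => h0 (beq_iff.1 h2))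
      rw [hb, if_neg h0]
      rfl
  | cons km L ih =>
    obtain ⟨k, m⟩ := km
    have h : usp ((k, m) :: L) r = uloop k m r (usp L) m := rfl
    rw [h, uloop_sum x k m r (usp L) _ ih m le_rfl, List.map_cons, List.prod_cons, add_pow,
      Finset.sum_mul, Polynomial.finsetSum_coeff]
    refine Finset.sum_congr rfl fun j _ => ?_
    have e : ((Polynomial.X : Polynomial A) ^ k) ^ j * (Polynomial.C (x k)) ^ (m - j) * (m.choose j : Polynomial A) *
        (L.map fun s => (Polynomial.X ^ s.1 + Polynomial.C (x s.1)) ^ s.2).prod =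
        Polynomial.X ^ (k * j) * (Polynomial.C ((m.choose j : A) * x k ^ (m - j)) *
          (L.map fun s => (Polynomial.X ^ s.1 + Polynomial.C (x s.1)) ^ s.2).prod) := by
      rw [Polynomial.C_mul, Polynomial.C_pow, ← pow_mul, Polynomial.C_eq_natCast]
      ring
    rw [e, Polynomial.coeff_X_pow_mul', Polynomial.coeff_C_mul]

end

/-- The product of power sums in `N` variables. -/
noncomputable def PP (N : ℕ) (K : Type*) [CommSemiring K] (L : List (ℕ × ℕ)) : MvPolynomial (Fin N) K :=
  (L.map fun s => psum (Fin N) K s.1 ^ s.2).prod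

theorem coeff_PP {K : Type*} [CommSemiring K] (N : ℕ) : ∀ (L : List (ℕ × ℕ)) (d : Fin N →₀ ℕ),
    coeff d (PP N K L) = (Rc (List.ofFn d) L : K) := by
  induction N with
  | zero =>
    intro L d
    have hd : d = 0 := Subsingleton.elim _ _
    subst hd
    have h1 : List.ofFn ((0 : Fin 0 →₀ ℕ) : Fin 0 → ℕ) = [] := List.ofFn_zero
    rw [h1]
    have h2 : Rc [] L = cond (allL (fun q => Nat.beq q.2 0) L) 1 0 := rfl
    rw [h2]
    have h3 : ∀ k, psum (Fin 0) K k = 0 := by
      intro k
      simp [psum]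
    rw [PP]
    simp_rw [h3]
    by_cases hL : allL (fun q : ℕ × ℕ => Nat.beq q.2 0) L = true
    · rw [hL, cond_true]
      rw [allL_eq] at hL
      have : (L.map fun s => (0 : MvPolynomial (Fin 0) K) ^ s.2).prod = 1 := by
        apply List.prod_eq_one
        intro y hy
        rw [List.mem_map] at hy
        obtain ⟨s, hs, rfl⟩ := hy
        rw [beq_iff.1 (hL s hs), pow_zero]
      rw [this]
      simp
    · have hL2 := hL
      rw [allL_eq] at hL
      push Not at hL
      obtain ⟨s, hs, h4⟩ := hL
      have h5 : s.2 ≠ 0 := fun h => h4 (beq_iff.2 h)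
      have : (L.map fun s => (0 : MvPolynomial (Fin 0) K) ^ s.2).prod = 0 := by
        apply List.prod_eq_zero
        rw [List.mem_map]
        exact ⟨s, hs, zero_pow h5⟩
      rw [this, Bool.eq_false_iff.2 hL2]
      simp
  | succ N ih =>
    intro L d
    have h1 : (List.ofFn d) = d 0 :: List.ofFn (Finsupp.tail d) := by
      rw [List.ofFn_succ]
      rfl
    rw [h1]
    have h2 : Rc (d 0 :: List.ofFn (Finsupp.tail d)) L =
        sumL (fun q => Nat.mul q.2 (Rc (List.ofFn (Finsupp.tail d)) q.1)) (usp L (d 0)) := rfl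
    rw [h2, sumL_eq]
    have h3 : coeff d (PP (N + 1) K L) =
        coeff (Finsupp.tail d) (Polynomial.coeff (finSuccEquiv K N (PP (N + 1) K L)) (d 0)) := by
      rw [finSuccEquiv_coeff_coeff, Finsupp.cons_tail]
    have h4 : finSuccEquiv K N (PP (N + 1) K L) =
        (L.map fun s => (Polynomial.X ^ s.1 + Polynomial.C (psum (Fin N) K s.1)) ^ s.2).prod := by
      rw [PP, map_list_prod, List.map_map]
      congr 1
      apply List.map_congr_left
      intro s _
      simp only [Function.comp]
      rw [map_pow]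
      congr 1
      rw [psum, psum, Fin.sum_univ_succ, map_add, map_pow, finSuccEquiv_X_zero, map_sum, map_sum]
      congr 1
      refine Finset.sum_congr rfl fun i _ => ?_
      rw [map_pow, map_pow, finSuccEquiv_X_succ]
    rw [h3, h4, ← usp_sum (fun k => psum (Fin N) K k) L (d 0)]
    rw [← lcoeff_apply (R := K), map_list_sum, List.map_map, Nat.cast_list_sum, List.map_map]
    congr 1
    apply List.map_congr_left
    intro q _
    simp only [Function.comp]
    rw [lcoeff_apply]
    have h5 : ((q.2 : ℕ) : MvPolynomial (Fin N) K) = C (q.2 : K) := by simp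
    rw [h5, coeff_C_mul]
    have h6 := ih q.1 (Finsupp.tail d)
    rw [PP] at h6
    rw [h6]
    change _ = ((q.2 * Rc (List.ofFn (Finsupp.tail d)) q.1 : ℕ) : K)
    push_cast
    rfl

end Pool.Agent.JackTab
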