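import Pool.Agent.Lib.JackTab.Base
import Pool.Agent.Lib.JackTab.Part
import Pool.Agent.Lib.JackTab.Mono

/-!
The tables and the checks (functions evaluated by the kernel).
-/

namespace Pool.Agent.JackTab

/-- The data of a certificate. -/
structure Dat where
  /-- levels up to `N` -/
  N : ℕ
  /-- base of the digits in the tables -/
  W : ℕ
  /-- the large value of `b` -/
  b : ℕ
  /-- the large value for the third alphabet -/
  B : ℕ
  /-- the partitions -/
  P : List (List (List ℕ))
  /-- the partitions as pairs (part, multiplicity) -/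
  rl : List (List (List (ℕ × ℕ)))
  /-- index of the union of two partitions -/
  U : List (List (List (List ℕ)))
  /-- splittings -/
  S : List (List (List (List (ℕ × ℕ))))
  /-- the numbers `z` -/
  z : List (List ℕ)
  /-- the lengths -/
  l : List (List ℕ)
  /-- the exponents for the third alphabet -/
  e : List (List ℕ)
  /-- the factors `n / g` -/
  q : List (List ℕ)
  /-- digits of the Jack coefficients, positive and negative part -/
  J : List (List (ℕ × ℕ))
  /-- digits of `h`, divided by `q` -/
  H : List (List (List ℕ))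

/-- Value at `b` of the polynomial whose coefficients are the first digits of `x`. -/
noncomputable def ed (W b : ℕ) (fuel : ℕ) : ℕ → ℕ :=
  Nat.rec (fun _ => 0)
    (fun _ ih x => cond (Nat.beq x 0) 0
      (Nat.add (Nat.mod x W) (Nat.mul b (ih (Nat.div x W))))) fuel

/-- Chunks. -/
noncomputable def vals0 (W Wn b n : ℕ) (p : ℕ) : ℕ → List ℕ :=
  Nat.rec (fun _ => [])
    (fun _ ih x => List.cons (ed W b n (Nat.mod x Wn)) (ih (Nat.div x Wn))) p

/-- The list of the values at `b` of the polynomials in a row. -/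
noncomputable def vals (W Wn b n p x : ℕ) : List ℕ := vals0 W Wn b n p (Nat.div x W)

noncomputable def cell3 (Hr Tr : List ℕ) (s : List (ℕ × ℕ)) : ℕ :=
  sumL (fun t => Nat.mul (nth 0 Hr t.1) (nth 0 Tr t.2)) s

/-- One entry of the new table. -/
noncomputable def cell (Ws : List ℕ) (R : List (List (List ℕ × List ℕ)))
    (sj : List (List (ℕ × ℕ))) : ℕ :=
  dot Ws (zipL (fun r s => sumL (fun hr => cell3 hr.1 hr.2 s) r) R sj)

noncomputable def rowsOf (Hs Ts : List (List (List ℕ))) (si : List (List (ℕ × ℕ))) :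
    List (List (List ℕ × List ℕ)) :=
  zipL (fun (ht : List (List ℕ) × List (List ℕ)) s =>
      mapL (fun t => (nth [] ht.1 t.1, nth [] ht.2 t.2)) s)
    (zipL (fun h t => (h, t)) Hs Ts) si

noncomputable def newT (Ws : List ℕ) (Hs Ts : List (List (List ℕ)))
    (S : List (List (List (ℕ × ℕ)))) : List (List ℕ) :=
  mapL (fun si => (fun R => mapL (fun sj => cell Ws R sj) S) (rowsOf Hs Ts si)) S

/-- Evaluated `h` table of one level. -/
noncomputable def hTab (W b n p : ℕ) (ys q : List ℕ) (rows : List (List ℕ)) : List (List ℕ) :=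
  (fun Wn => mapL (fun row => zipL (fun qj x => Nat.mul qj (dot (vals W Wn b n p x) ys)) q row)
    rows) (Nat.pow W n)

/-- Weights. -/
noncomputable def wts (al : ℕ) (fuel : ℕ) : ℕ → ℕ → List ℕ :=
  Nat.rec (fun _ _ => [])
    (fun _ ih m acc => List.cons acc (ih (Nat.pred m) (Nat.mul acc (Nat.mul m al)))) fuel

noncomputable def build (al : ℕ) (Hall : List (List (List ℕ)))
    (Ss : List (List (List (List (ℕ × ℕ))))) : ℕ → List (List (List ℕ)) → List (List (List ℕ)) :=
  List.rec (fun _ Ts => Ts)
    (fun S _ ih n Ts => ih (Nat.succ n) (List.cons (newT (wts al (Nat.succ n) n 1) Hall Ts S) Ts))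
    Ss

noncomputable def pows (B : ℕ) (e : List ℕ) : List ℕ := mapL (fun k => Nat.pow B k) e

/-- The list `[0, ..., p - 1]`. -/
noncomputable def rng (p : ℕ) : List ℕ :=
  (Nat.rec (fun _ => []) (fun _ ih i => List.cons i (ih (Nat.succ i))) p : ℕ → List ℕ) 0

noncomputable def hLev (D : Dat) (b B n : ℕ) : List (List ℕ) :=
  hTab D.W b n (List.length (nth [] D.P n)) (pows B (nth [] D.e n)) (nth [] D.q n) (nth [] D.H n)

/-- All tables `[T_N, ..., T_0]`. -/
noncomputable def allT (D : Dat) (b B : ℕ) : List (List (List ℕ)) :=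
  build (Nat.succ b) (mapL (fun a => hLev D b B (Nat.succ a)) (rng D.N)) (List.tail D.S) 0 [[[1]]]

/-- The weights `z α ^ ℓ`. -/
noncomputable def wL (D : Dat) (b n : ℕ) : List ℕ :=
  zipL (fun a k => Nat.mul a (Nat.pow (Nat.succ b) k)) (nth [] D.z n) (nth [] D.l n)

noncomputable def jP (D : Dat) (b n th : ℕ) : List ℕ :=
  vals D.W (Nat.pow D.W n) b n (List.length (nth [] D.P n)) (nth (0, 0) (nth [] D.J n) th).1

noncomputable def jM (D : Dat) (b n th : ℕ) : List ℕ :=
  vals D.W (Nat.pow D.W n) b n (List.length (nth [] D.P n)) (nth (0, 0) (nth [] D.J n) th).2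

/-- The constant `α ^ n n!`. -/
noncomputable def cC (b n : ℕ) : ℕ := Nat.mul (Nat.pow (Nat.succ b) n) (fac n)

noncomputable def jchk1 (C : ℕ) (ys w P M : List ℕ) (T : List (List ℕ)) : Bool :=
  (fun u v RP RN => allL (fun (r : (ℕ × ℕ) × List ℕ) =>
      Nat.beq
        (Nat.add (dot u r.2) (Nat.mul C (Nat.add (Nat.mul r.1.1 RN) (Nat.mul r.1.2 RP))))
        (Nat.add (dot v r.2) (Nat.mul C (Nat.add (Nat.mul r.1.1 RP) (Nat.mul r.1.2 RN)))))
    (zipL (fun a b => (a, b)) (zipL (fun a b => (a, b)) P M) T))
    (zipL Nat.mul w P) (zipL Nat.mul w M) (dot P ys) (dot M ys)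

/-- The product identity for the rows `th` of level `n`; `T` is the table of level `n`. -/
noncomputable def jchk (D : Dat) (b B n : ℕ) (T : List (List ℕ)) (ths : List ℕ) : Bool :=
  (fun ys w C => allL (fun th => jchk1 C ys w (jP D b n th) (jM D b n th) T) ths)
    (pows B (nth [] D.e n)) (wL D b n) (cC b n)

/-- Bound for both sides of the product identity; `tot` is the sum of all values of `T`. -/
noncomputable def bchk (D : Dat) (b n bound : ℕ) (tot : ℕ) : Bool :=
  (fun w C => allL (fun th => (fun P M => (fun s => Nat.blt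
      (Nat.add (Nat.mul (Nat.add (dot w P) (dot w M)) tot) (Nat.mul C (Nat.mul s s))) bound)
      (Nat.add (sumL (fun x => x) P) (sumL (fun x => x) M))) (jP D b n th) (jM D b n th))
      (rng (List.length (nth [] D.P n))))
    (wL D b n) (cC b n)

/-- The sum of all values of `h` in one degree. -/
noncomputable def htot (D : Dat) (b n : ℕ) : ℕ :=
  sumL (fun r => sumL (fun x => x) r) (hLev D b 1 n)

/-- The sums of the values of `T`: the list for the degrees `n, ..., 0`. -/
noncomputable def tots (al : ℕ) (Hs : List ℕ) (n : ℕ) : List ℕ :=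
  Nat.rec [1] (fun n ih => List.cons (dot (wts al (Nat.succ n) n 1) (zipL Nat.mul Hs ih)) ih) n

end Pool.Agent.JackTab
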