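import Pool.Agent.Lib.JackTab.Chk

/-!
Checks of the Jack tables and of the product identity.
-/

open Polynomial

namespace Pool.Agent.JackTab

/-- The weights as polynomials. -/
noncomputable def wf (D : Dat) (n l : ℕ) : ℕ[X] := C (zf D n l) * (X + 1) ^ lf D n l

theorem wL_eq {D : Dat} (hD : Shape D) (b : ℕ) {n : ℕ} (hn : n ≤ D.N) :
    wL D b n = (List.range (pn n)).map fun l => (wf D n l).eval b := by
  rw [wL, nth_eq, nth_eq, getD_list 0 _ _ (hD.z n hn), getD_list 0 _ _ (hD.l n hn), zipL_range]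
  apply List.map_congr_left
  intro l _
  rw [wf, eval_mul, eval_C, eval_pow, eval_add, eval_X, eval_one]
  rfl

theorem jP_eq {D : Dat} (hD : Shape D) (b : ℕ) {n : ℕ} (hn : n ≤ D.N) (th : ℕ) :
    jP D b n th = (List.range (pn n)).map fun l => (JPf D n th l).eval b := by
  rw [jP, nth_eq, nth_eq, nth_eq, hD.P n hn]
  exact vals_eq D.W b n (pn n) _

theorem jM_eq {D : Dat} (hD : Shape D) (b : ℕ) {n : ℕ} (hn : n ≤ D.N) (th : ℕ) :
    jM D b n th = (List.range (pn n)).map fun l => (JMf D n th l).eval b := by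
  rw [jM, nth_eq, nth_eq, nth_eq, hD.P n hn]
  exact vals_eq D.W b n (pn n) _

/-- A test for an identity of polynomials. -/
structure Test where
  /-- value of `b` -/
  b : ℕ
  /-- the test -/
  t : ℕ → ℕ → Bool

noncomputable def tEq (D : Dat) : Test := ⟨D.b, Nat.beq⟩
noncomputable def tBd (D : Dat) : Test := ⟨1, fun x y => Nat.blt x D.b && Nat.blt y D.b⟩

theorem test_sound {D : Dat} {P Q : ℕ[X]} (h1 : (tEq D).t (P.eval (tEq D).b) (Q.eval (tEq D).b) = true)
    (h2 : (tBd D).t (P.eval (tBd D).b) (Q.eval (tBd D).b) = true) : P = Q := by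
  simp only [tEq, tBd, Bool.and_eq_true, blt_iff, beq_iff] at h1 h2
  exact kron h2.1 h2.2 h1

noncomputable def rowsK (D : Dat) (b n : ℕ) : List (List ℕ × List ℕ) :=
  mapL (fun th => (jP D b n th, jM D b n th)) (rng (List.length (nth [] D.P n)))

noncomputable def orthK (D : Dat) (b n : ℕ) (t : ℕ → ℕ → Bool) (s : Bool) : Bool :=
  (fun w rows => allL (fun i => (fun r => (fun wP wM => allL (fun j => (fun r' =>
      t (Nat.add (dot wP r'.1) (dot wM r'.2)) (Nat.add (dot wP r'.2) (dot wM r'.1)))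
        (nth ([], []) rows j)) (rng i) &&
      (s || !(Nat.beq (Nat.add (dot wP r.1) (dot wM r.2)) (Nat.add (dot wP r.2) (dot wM r.1)))))
      (zipL Nat.mul w r.1) (zipL Nat.mul w r.2)) (nth ([], []) rows i))
    (rng (List.length (nth [] D.P n)))) (wL D b n) (rowsK D b n)

noncomputable def colK (D : Dat) (n r : ℕ) : List ℕ :=
  (fun l => mapL (fun L => Rc (appL l (mapL (fun _ => 0) (rng (Nat.sub n (List.length l))))) L)
    (nth [] D.rl n)) (ptK D n r)

noncomputable def triK (D : Dat) (b n : ℕ) (t : ℕ → ℕ → Bool) (s : Bool) : Bool :=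
  (fun rows => allL (fun r => (fun col => allL (fun th => (fun x =>
      t (dot x.1 col) (dot x.2 col)) (nth ([], []) rows th)) (rng r) &&
      (s || (fun x : List ℕ × List ℕ => !(Nat.beq (dot x.1 col) (dot x.2 col))) (nth ([], []) rows r)))
      (colK D n r)) (rng (List.length (nth [] D.P n)))) (rowsK D b n)

noncomputable def oneK (D : Dat) (n : ℕ) : Bool :=
  Nat.ble 1 n && Nat.blt 1 D.W &&
  Nat.beq (List.length (nth [] D.rl n)) (List.length (nth [] D.P n)) &&
  allL (fun th => (fun x : ℕ × ℕ =>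
    Nat.beq (Nat.mod (Nat.div x.1 D.W) (Nat.pow D.W n)) 1 &&
    Nat.beq (Nat.mod (Nat.div x.2 D.W) (Nat.pow D.W n)) 0) (nth (0, 0) (nth [] D.J n) th) &&
    Nat.beq (nth 0 (colK D n 0) th) (cond (Nat.beq th 0) (fac n) 0))
    (rng (List.length (nth [] D.P n)))

/-- The coefficient of the monomial with index `r` in the product of power sums with index `l`. -/
noncomputable def Rf (D : Dat) (n l r : ℕ) : ℕ :=
  Rc (pt n r ++ List.replicate (n - (pt n r).length) 0) ((D.rl.getD n []).getD l [])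

/-- Facts on the Jack tables in degree `n`. -/
structure JF (D : Dat) (n : ℕ) : Prop where
  n1 : 1 ≤ n
  orth : ∀ i < pn n, ∀ j < i,
    ∑ l ∈ Finset.range (pn n), wf D n l * (JPf D n i l * JPf D n j l + JMf D n i l * JMf D n j l) =
    ∑ l ∈ Finset.range (pn n), wf D n l * (JPf D n i l * JMf D n j l + JMf D n i l * JPf D n j l)
  norm : ∀ i < pn n,
    ∑ l ∈ Finset.range (pn n), wf D n l * (JPf D n i l * JPf D n i l + JMf D n i l * JMf D n i l) ≠
    ∑ l ∈ Finset.range (pn n), wf D n l * (JPf D n i l * JMf D n i l + JMf D n i l * JPf D n i l)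
  tri : ∀ r < pn n, ∀ th < r,
    ∑ l ∈ Finset.range (pn n), JPf D n th l * C (Rf D n l r) =
    ∑ l ∈ Finset.range (pn n), JMf D n th l * C (Rf D n l r)
  diag : ∀ th < pn n,
    ∑ l ∈ Finset.range (pn n), JPf D n th l * C (Rf D n l th) ≠
    ∑ l ∈ Finset.range (pn n), JMf D n th l * C (Rf D n l th)
  oneP : ∀ th < pn n, JPf D n th 0 = 1
  oneM : ∀ th < pn n, JMf D n th 0 = 0
  R0 : ∀ l < pn n, Rf D n l 0 = if l = 0 then n.factorial else 0

theorem rowsK_eq {D : Dat} (hD : Shape D) (b : ℕ) {n : ℕ} (hn : n ≤ D.N) :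
    rowsK D b n = (List.range (pn n)).map fun th =>
      ((List.range (pn n)).map fun l => (JPf D n th l).eval b,
        (List.range (pn n)).map fun l => (JMf D n th l).eval b) := by
  rw [rowsK, mapL_eq, rng_eq, nth_eq, hD.P n hn]
  apply List.map_congr_left
  intro th _
  rw [jP_eq hD b hn, jM_eq hD b hn]

theorem dotw {p : ℕ} (w f g : ℕ → ℕ) :
    dot (zipL Nat.mul ((List.range p).map w) ((List.range p).map f)) ((List.range p).map g) =
      ∑ l ∈ Finset.range p, w l * f l * g l := by
  rw [zipL_range, dot_range]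
  rfl

theorem orthK_pair {D : Dat} (hD : Shape D) {b n : ℕ} (hn : n ≤ D.N) {t : ℕ → ℕ → Bool} {s : Bool}
    (h : orthK D b n t s = true) :
    ∀ i < pn n, (∀ j < i,
      t ((∑ l ∈ Finset.range (pn n), wf D n l * (JPf D n i l * JPf D n j l + JMf D n i l * JMf D n j l)).eval b)
        ((∑ l ∈ Finset.range (pn n), wf D n l * (JPf D n i l * JMf D n j l + JMf D n i l * JPf D n j l)).eval b)
        = true) ∧ (s = false →
      (∑ l ∈ Finset.range (pn n), wf D n l * (JPf D n i l * JPf D n i l + JMf D n i l * JMf D n i l)).eval b ≠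
      (∑ l ∈ Finset.range (pn n), wf D n l * (JPf D n i l * JMf D n i l + JMf D n i l * JPf D n i l)).eval b) := by
  have e1 : ∀ i j : ℕ,
      (∑ l ∈ Finset.range (pn n), wf D n l * (JPf D n i l * JPf D n j l + JMf D n i l * JMf D n j l)).eval b =
      (∑ l ∈ Finset.range (pn n), (wf D n l).eval b * (JPf D n i l).eval b * (JPf D n j l).eval b) +
      (∑ l ∈ Finset.range (pn n), (wf D n l).eval b * (JMf D n i l).eval b * (JMf D n j l).eval b) := by
    intro i j
    rw [eval_finsetSum, ← Finset.sum_add_distrib]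
    refine Finset.sum_congr rfl fun l _ => ?_
    simp only [eval_mul, eval_add]
    ring
  have e2 : ∀ i j : ℕ,
      (∑ l ∈ Finset.range (pn n), wf D n l * (JPf D n i l * JMf D n j l + JMf D n i l * JPf D n j l)).eval b =
      (∑ l ∈ Finset.range (pn n), (wf D n l).eval b * (JPf D n i l).eval b * (JMf D n j l).eval b) +
      (∑ l ∈ Finset.range (pn n), (wf D n l).eval b * (JMf D n i l).eval b * (JPf D n j l).eval b) := by
    intro i j
    rw [eval_finsetSum, ← Finset.sum_add_distrib]
    refine Finset.sum_congr rfl fun l _ => ?_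
    simp only [eval_mul, eval_add]
    ring
  intro i hi
  rw [orthK] at h
  change allL _ (rng (List.length (nth [] D.P n))) = true at h
  rw [nth_eq, hD.P n hn, wL_eq hD b hn, rowsK_eq hD b hn, allL_rng] at h
  have h1 := h i hi
  rw [nth_range _ _ _ hi] at h1
  simp only [Bool.and_eq_true, allL_rng] at h1
  constructor
  · intro j hj
    have h2 := h1.1 j hj
    rw [nth_range _ _ _ (hj.trans hi)] at h2
    simp only [dotw] at h2
    rw [e1, e2]
    exact h2
  · intro hs
    have h2 := h1.2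
    rw [hs, Bool.false_or] at h2
    simp only [dotw] at h2
    rw [e1, e2]
    intro h3
    rw [Bool.not_eq_true'] at h2
    have h4 := beq_iff.2 h3
    exact Bool.noConfusion (h4.symm.trans h2)

theorem colK_eq {D : Dat} (hD : Shape D) {n : ℕ} (hn : n ≤ D.N)
    (hlen : (D.rl.getD n []).length = pn n) (r : ℕ) :
    colK D n r = (List.range (pn n)).map fun l => Rf D n l r := by
  have hpt : ptK D n r = pt n r := by
    rw [ptK, nth_eq, nth_eq, hD.P n hn]
    rfl
  rw [colK, hpt]
  change mapL _ _ = _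
  rw [nth_eq, getD_list [] _ _ hlen, mapL_range]
  apply List.map_congr_left
  intro l hl
  rw [Rf, appL_eq, mapL_eq, rng_eq]
  congr 2
  rw [List.map_const', List.length_range]
  rfl

theorem triK_pair {D : Dat} (hD : Shape D) {b n : ℕ} (hn : n ≤ D.N)
    (hlen : (D.rl.getD n []).length = pn n) {t : ℕ → ℕ → Bool} {s : Bool}
    (h : triK D b n t s = true) :
    ∀ r < pn n, (∀ th < r,
      t ((∑ l ∈ Finset.range (pn n), JPf D n th l * C (Rf D n l r)).eval b)
        ((∑ l ∈ Finset.range (pn n), JMf D n th l * C (Rf D n l r)).eval b) = true) ∧ (s = false →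
      (∑ l ∈ Finset.range (pn n), JPf D n r l * C (Rf D n l r)).eval b ≠
        (∑ l ∈ Finset.range (pn n), JMf D n r l * C (Rf D n l r)).eval b) := by
  have e1 : ∀ (f : ℕ → ℕ[X]) (r : ℕ), (∑ l ∈ Finset.range (pn n), f l * C (Rf D n l r)).eval b =
      ∑ l ∈ Finset.range (pn n), (f l).eval b * Rf D n l r := by
    intro f r
    rw [eval_finsetSum]
    refine Finset.sum_congr rfl fun l _ => ?_
    rw [eval_mul, eval_C]
  intro r hr
  rw [triK] at h
  change allL _ (rng (List.length (nth [] D.P n))) = true at h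
  rw [nth_eq, hD.P n hn, rowsK_eq hD b hn, allL_rng] at h
  have h1 := h r hr
  rw [colK_eq hD hn hlen] at h1
  simp only [Bool.and_eq_true, allL_rng] at h1
  constructor
  · intro th hth
    have h2 := h1.1 th hth
    rw [nth_range _ _ _ (hth.trans hr)] at h2
    simp only [dot_range] at h2
    rw [e1, e1]
    exact h2
  · intro hs
    have h2 := h1.2
    rw [hs, Bool.false_or, nth_range _ _ _ hr] at h2
    simp only [dot_range] at h2
    rw [e1, e1]
    intro h3
    rw [Bool.not_eq_true'] at h2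
    have h4 := beq_iff.2 h3
    exact Bool.noConfusion (h4.symm.trans h2)

/-- The checks of the Jack tables in degree `n`. -/
noncomputable def jfB (D : Dat) (n : ℕ) : Bool :=
  oneK D n && orthK D D.b n Nat.beq false &&
  orthK D 1 n (fun x y => Nat.blt x D.b && Nat.blt y D.b) true &&
  triK D D.b n Nat.beq false &&
  triK D 1 n (fun x y => Nat.blt x D.b && Nat.blt y D.b) true

theorem jf_of {D : Dat} (hD : Shape D) {n : ℕ} (hn : n ≤ D.N) (h : jfB D n = true) : JF D n := by
  simp only [jfB, Bool.and_eq_true] at h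
  obtain ⟨⟨⟨⟨h1, h2⟩, h3⟩, h4⟩, h5⟩ := h
  simp only [oneK, Bool.and_eq_true, allL_rng, blt_iff, ble_iff, beq_iff] at h1
  obtain ⟨⟨⟨n1, hW⟩, hlen⟩, h1⟩ := h1
  rw [nth_eq, nth_eq, hD.P n hn] at hlen
  have hlen' : (D.rl.getD n []).length = pn n := hlen
  have o1 := orthK_pair hD hn h2
  have o2 := orthK_pair hD hn h3
  have t1 := triK_pair hD hn hlen' h4
  have t2 := triK_pair hD hn hlen' h5
  have hd : ∀ x : ℕ, chunk D.W n x 0 = x / D.W % D.W ^ n := by
    intro x
    rw [chunk, pow_zero, Nat.div_one]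
  obtain ⟨m, rfl⟩ := Nat.exists_eq_add_of_le' n1
  have h1' : ∀ i < pn (m + 1), _ := fun i hi => h1 i (by rw [nth_eq, hD.P _ hn]; exact hi)
  refine
    { n1 := n1
      orth := fun i hi j hj => test_sound (D := D) ((o1 i hi).1 j hj) ((o2 i hi).1 j hj)
      norm := fun i hi he => (o1 i hi).2 rfl (by rw [he])
      tri := fun r hr th hth => test_sound (D := D) ((t1 r hr).1 th hth) ((t2 r hr).1 th hth)
      diag := fun r hr he => (t1 r hr).2 rfl (by rw [he])
      oneP := ?_
      oneM := ?_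
      R0 := ?_ }
  · intro th hth
    have h6 := (h1' th hth).1.1
    rw [nth_eq, nth_eq] at h6
    rw [JPf, hd]
    have h7 : (Jf D (m + 1) th).1 / D.W % D.W ^ (m + 1) = 1 := h6
    rw [h7, dig_one hW]
  · intro th hth
    have h6 := (h1' th hth).1.2
    rw [nth_eq, nth_eq] at h6
    rw [JMf, hd]
    have h7 : (Jf D (m + 1) th).2 / D.W % D.W ^ (m + 1) = 0 := h6
    rw [h7, dig_zero]
  · intro l hl
    have h6 := (h1' l hl).2
    rw [colK_eq hD hn hlen', nth_range _ _ _ hl, fac_eq] at h6
    rw [h6]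
    by_cases h0 : l = 0
    · rw [if_pos h0, beq_iff.2 h0]
      rfl
    · rw [if_neg h0, Bool.eq_false_iff.2 (fun h => h0 (beq_iff.1 h))]
      rfl

end Pool.Agent.JackTab
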