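import Mathlib

/-!
Uniqueness of an orthogonal triangular family, and completeness of an orthogonal family.
-/

open Matrix

namespace Pool.Agent.JackTab

variable {p : ℕ} {K : Type*} [Field K]

theorem jack_unique (w : Fin p → K) (R J J' : Fin p → Fin p → K) (o : Fin p)
    (tri : ∀ th r, th < r → ∑ l, J th l * R l r = 0)
    (diag : ∀ th, ∑ l, J th l * R l th ≠ 0)
    (tri' : ∀ th r, th < r → ∑ l, J' th l * R l r = 0)
    (orth : ∀ th nu, th ≠ nu → ∑ l, J th l * J nu l * w l = 0)
    (orth' : ∀ th nu, th ≠ nu → ∑ l, J' th l * J' nu l * w l = 0)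
    (norm : ∀ th, ∑ l, J th l * J th l * w l ≠ 0)
    (one : ∀ th, J th o = 1) (one' : ∀ th, J' th o = 1) : J' = J := by
  classical
  set JM : Matrix (Fin p) (Fin p) K := Matrix.of J with hJM
  set RM : Matrix (Fin p) (Fin p) K := Matrix.of R with hRM
  have hA : ∀ th r, (JM * RM) th r = ∑ l, J th l * R l r := by
    intro th r
    rw [Matrix.mul_apply]
    rfl
  have hdet : (JM * RM).det ≠ 0 := by
    rw [Matrix.det_of_isLowerTriangular]
    · rw [Finset.prod_ne_zero_iff]
      intro th _
      rw [hA]
      exact diag th
    · intro th r h
      rw [hA]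
      exact tri th r h
  have hJdet : IsUnit JM.det := by
    rw [Matrix.det_mul] at hdet
    exact isUnit_iff_ne_zero.2 (left_ne_zero_of_mul hdet)
  have main : ∀ n : ℕ, ∀ th : Fin p, (th : ℕ) = n → J' th = J th := by
    intro n
    induction n using Nat.strong_induction_on with
    | _ n ih =>
      intro th hth
      set c : Fin p → K := J' th ᵥ* JM⁻¹ with hc
      have hf : c ᵥ* JM = J' th := by
        rw [hc, Matrix.vecMul_vecMul, Matrix.nonsing_inv_mul _ hJdet, Matrix.vecMul_one]
      have hf' : ∀ l, J' th l = ∑ nu, c nu * J nu l := by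
        intro l
        rw [← hf]
        rfl
      have hR : ∀ r, ∑ l, J' th l * R l r = ∑ nu, c nu * ∑ l, J nu l * R l r := by
        intro r
        simp_rw [hf', Finset.sum_mul, Finset.mul_sum]
        rw [Finset.sum_comm]
        refine Finset.sum_congr rfl fun nu _ => Finset.sum_congr rfl fun l _ => ?_
        ring
      have hup : ∀ r, th < r → c r = 0 := by
        by_contra hcon
        push Not at hcon
        obtain ⟨r0, h0, h1⟩ := hcon
        let S : Finset (Fin p) := Finset.univ.filter (fun r => th < r ∧ c r ≠ 0)
        have hS : S.Nonempty := ⟨r0, by simp [S, h0, h1]⟩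
        have hm := S.max'_mem hS
        set r := S.max' hS with hr
        have hr1 : th < r ∧ c r ≠ 0 := by simpa [S] using hm
        have h2 := hR r
        rw [tri' th r hr1.1, Finset.sum_eq_single r] at h2
        · exact (mul_ne_zero hr1.2 (diag r)) h2.symm
        · intro nu _ hnu
          rcases lt_or_gt_of_ne hnu with h | h
          · rw [tri nu r h, mul_zero]
          · have h3 : c nu = 0 := by
              by_contra h4
              have h5 : nu ∈ S := by simp [S, h4, hr1.1.trans h]
              have h6 := S.le_max' nu h5
              exact absurd h (not_lt.2 h6)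
            rw [h3, zero_mul]
        · intro h
          exact absurd (Finset.mem_univ r) h
      have hlow : ∀ nu, nu < th → c nu = 0 := by
        intro nu hnu
        have h1 : ∑ l, J' th l * J nu l * w l = c nu * ∑ l, J nu l * J nu l * w l := by
          have h2 : ∑ l, J' th l * J nu l * w l = ∑ m, c m * ∑ l, J m l * J nu l * w l := by
            simp_rw [hf', Finset.sum_mul, Finset.mul_sum]
            rw [Finset.sum_comm]
            refine Finset.sum_congr rfl fun nu _ => Finset.sum_congr rfl fun l _ => ?_
            ring
          rw [h2, Finset.sum_eq_single nu]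
          · intro m _ hm
            rw [orth m nu hm, mul_zero]
          · intro h
            exact absurd (Finset.mem_univ nu) h
        have h3 : J' nu = J nu := ih nu (by rw [← hth]; exact hnu) nu rfl
        have h4 := orth' th nu (ne_of_gt hnu)
        rw [h3, h1] at h4
        rcases mul_eq_zero.1 h4 with h5 | h5
        · exact h5
        · exact absurd h5 (norm nu)
      have hfin : ∀ l, J' th l = c th * J th l := by
        intro l
        rw [hf', Finset.sum_eq_single th]
        · intro nu _ hnu
          rcases lt_or_gt_of_ne hnu with h | h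
          · rw [hlow nu h, zero_mul]
          · rw [hup nu h, zero_mul]
        · intro h
          exact absurd (Finset.mem_univ th) h
      have hc1 : c th = 1 := by
        have h1 := hfin o
        rw [one, one', mul_one] at h1
        exact h1.symm
      funext l
      rw [hfin l, hc1, one_mul]
  funext th
  exact main th th rfl

/-- Completeness of an orthogonal basis. -/
theorem complete (w : Fin p → K) (J : Fin p → Fin p → K)
    (orth : ∀ th nu, th ≠ nu → ∑ l, J th l * J nu l * w l = 0)
    (norm : ∀ th, ∑ l, J th l * J th l * w l ≠ 0) (a b : Fin p) :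
    ∑ th, (∑ l, J th l * J th l * w l)⁻¹ * J th a * J th b * w b = if a = b then 1 else 0 := by
  classical
  let A : Matrix (Fin p) (Fin p) K := Matrix.of fun th l => J th l
  let B : Matrix (Fin p) (Fin p) K := Matrix.of fun l th => w l * J th l * (∑ l, J th l * J th l * w l)⁻¹
  have h1 : A * B = 1 := by
    ext th nu
    rw [Matrix.mul_apply]
    have h2 : ∑ l, A th l * B l nu = (∑ l, J th l * J nu l * w l) * (∑ l, J nu l * J nu l * w l)⁻¹ := by
      rw [Finset.sum_mul]
      refine Finset.sum_congr rfl fun l _ => ?_
      simp only [A, B, Matrix.of_apply]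
      ring
    rw [h2]
    by_cases h : th = nu
    · subst h
      rw [mul_inv_cancel₀ (norm th), Matrix.one_apply_eq]
    · rw [orth th nu h, zero_mul, Matrix.one_apply_ne h]
  have h2 : B * A = 1 := mul_eq_one_comm.1 h1
  have h3 := congrFun (congrFun h2 b) a
  rw [Matrix.mul_apply] at h3
  have h4 : ∑ th, (∑ l, J th l * J th l * w l)⁻¹ * J th a * J th b * w b = ∑ th, B b th * A th a := by
    refine Finset.sum_congr rfl fun l _ => ?_
    simp only [A, B, Matrix.of_apply]
    ring
  rw [h4, h3, Matrix.one_apply]
  by_cases h : a = b
  · rw [if_pos h, if_pos h.symm]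
  · rw [if_neg h, if_neg (Ne.symm h)]

end Pool.Agent.JackTab
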