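import Pool.Agent.Lib.JackTab.Prod
import Pool.Agent.Lib.JackTab.Sym
import Pool.Agent.Lib.JackTab.Unique
import Pool.Agent.Lib.JackB.Red

/-!
The tables and the Jack family.
-/

open Polynomial

namespace Pool.Agent.JackTab

open JackB (K al Fam Orth IsJack zal jn zz)

/-- The map from polynomials with natural coefficients to rational functions. -/
noncomputable def io : ℕ[X] →+* K :=
  (algebraMap ℚ[X] K).comp (Polynomial.mapRingHom (Nat.castRingHom ℚ))

theorem io_inj : Function.Injective io := by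
  intro P Q h
  have h1 : (algebraMap ℚ[X] K) (P.map (Nat.castRingHom ℚ)) = (algebraMap ℚ[X] K) (Q.map (Nat.castRingHom ℚ)) := h
  have h2 := RatFunc.algebraMap_injective ℚ h1
  exact Polynomial.map_injective _ Nat.cast_injective h2

theorem io_X : io X = RatFunc.X := by
  change (algebraMap ℚ[X] K) ((X : ℕ[X]).map (Nat.castRingHom ℚ)) = _
  rw [Polynomial.map_X, RatFunc.algebraMap_X]

theorem io_al : io (X + 1) = al := by
  rw [map_add, map_one, io_X, al, add_comm]

theorem io_C (c : ℕ) : io (C c) = (c : K) := by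
  have h : (C c : ℕ[X]) = (c : ℕ[X]) := rfl
  rw [h, map_natCast]

theorem io_mem (P : ℕ[X]) : io P ∈ JackB.Nb := ⟨P, rfl⟩

variable {D : Dat} {n : ℕ}

theorem zal_pe (hF : Facts D) (hn : n ≤ D.N) (l : Fin (pn n)) :
    zal (pe n l) = io (wf D n l) := by
  rw [JackB.zal_eq, wf, map_mul, map_pow, io_al, io_C, pe_parts, Multiset.coe_card,
    ← hF.l n hn l l.2, hF.z n hn l l.2]
  congr 2
  have h1 : (pt n l : Multiset ℕ).toFinset ⊆ Finset.range (n + 1) := by
    intro x hx
    rw [Multiset.mem_toFinset, Multiset.mem_coe] at hx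
    have h2 := mem_pl.1 (pt_mem l.2)
    have h3 : x ≤ (pt n l).sum := List.single_le_sum (by simp) x hx
    rw [h2.2.2] at h3
    exact Finset.mem_range.2 (Nat.lt_succ_of_le h3)
  rw [JackB.zz_eq _ _ h1]
  simp only [Multiset.coe_count]

/-- The Jack coefficients of the table. -/
noncomputable def Jk (D : Dat) (n : ℕ) (th l : Fin (pn n)) : K :=
  io (JPf D n th l) - io (JMf D n th l)

theorem pn_pos (n : ℕ) : 0 < pn n := by
  rw [pn, List.length_pos_iff_exists_mem]
  refine ⟨List.replicate n 1, ?_⟩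
  rw [mem_pl]
  refine ⟨?_, ?_, ?_⟩
  · rw [List.pairwise_replicate]
    right
    exact le_rfl
  · intro x hx
    rw [(List.mem_replicate.1 hx).2]
    exact Nat.one_pos
  · simp

theorem pe_zero (hF : Facts D) (hn : n ≤ D.N) :
    pe n ⟨0, pn_pos n⟩ = JackB.ones n := by
  apply Nat.Partition.ext
  rw [pe_parts]
  change ((pt n 0 : List ℕ) : Multiset ℕ) = Multiset.replicate n 1
  rw [hF.one n hn, Multiset.coe_replicate]

theorem topSum_pe (i : Fin (pn n)) (k : ℕ) :
    JackB.topSum (pe n i) k = ((pt n i).take k).sum := by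
  rw [JackB.topSum]
  congr 2
  rw [pe_parts]
  have h1 := (mem_pl.1 (pt_mem i.2)).1
  have h2 : ((pt n i : Multiset ℕ).sort (fun a b => b ≤ a)).Perm (pt n i) := by
    rw [← Multiset.coe_eq_coe, Multiset.sort_eq]
  exact h2.eq_of_pairwise (fun a b _ _ hab hba => le_antisymm hba hab)
    (Multiset.pairwise_sort _ _) h1

theorem jack_eq {J : Fam} (hJ : IsJack J) (hF : Facts D) (hn : n ≤ D.N)
    (hJF : JF D n) (th l : Fin (pn n)) : J n (pe n th) (pe n l) = Jk D n th l := by
  have hRc : ∀ (l r : Fin (pn n)), MvPolynomial.coeff (dvec n (pt n r))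
      (MvPolynomial.psumPart (Fin n) K (pe n l)) = (Rf D n l r : K) := by
    intro l r
    exact coeff_psumPart n l r _ (hF.rl n hn l l.2)
  have hsumR : ∀ (f : ℕ → ℕ[X]) (g : ℕ → ℕ[X]), io (∑ l ∈ Finset.range (pn n), f l * g l) =
      ∑ l : Fin (pn n), io (f l) * io (g l) := by
    intro f g
    rw [map_sum, ← Fin.sum_univ_eq_sum_range (fun l => io (f l * g l))]
    simp only [map_mul]
  have hcoef : ∀ (th r : Fin (pn n)), ∃ a : n.Partition → K,
      (∑ l : Fin (pn n), J n (pe n th) (pe n l) * (Rf D n l r : K)) = a (pe n r) ∧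
      (∀ m, a m ≠ 0 → JackB.Dom m (pe n th)) ∧ a (JackB.ones n) = (n.factorial : K) := by
    intro th r
    obtain ⟨a, h1, h2, h3⟩ := hJ.tri n (pe n th)
    refine ⟨a, ?_, h2, h3⟩
    have h4 := congrArg (MvPolynomial.coeff (dvec n (pt n r))) h1
    rw [MvPolynomial.coeff_sum, MvPolynomial.coeff_sum, sum_pe] at h4
    simp only [MvPolynomial.coeff_C_mul, hRc, coeff_msymm] at h4
    rw [h4, Finset.sum_eq_single (pe n r)]
    · rw [if_pos rfl, mul_one]
    · intro b _ hb
      rw [if_neg hb, mul_zero]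
    · intro h
      exact absurd (Finset.mem_univ _) h
  have key := jack_unique (p := pn n) (K := K) (fun l => io (wf D n l)) (fun l r => (Rf D n l r : K))
    (Jk D n) (fun th l => J n (pe n th) (pe n l)) ⟨0, pn_pos n⟩ ?_ ?_ ?_ ?_ ?_ ?_ ?_ ?_
  · exact congrFun (congrFun key th) l
  · intro th r h
    have h1 := congrArg io (hJF.tri r r.2 th h)
    rw [hsumR, hsumR] at h1
    simp only [io_C] at h1
    simp only [Jk, sub_mul, Finset.sum_sub_distrib]
    rw [h1, sub_self]
  · intro th h
    simp only [Jk, sub_mul, Finset.sum_sub_distrib] at h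
    have h1 := sub_eq_zero.1 h
    apply hJF.diag th th.2
    apply io_inj
    rw [hsumR, hsumR]
    simp only [io_C]
    exact h1
  · intro th r h
    obtain ⟨a, h1, h2, _⟩ := hcoef th r
    rw [h1]
    by_contra h3
    have h4 := h2 _ h3
    obtain ⟨k, hk⟩ := hF.dom n hn r r.2 th h
    have h5 := h4 k
    rw [topSum_pe, topSum_pe] at h5
    omega
  · intro th nu h
    rcases lt_or_gt_of_ne h with h1 | h1
    · have h2 := congrArg io (hJF.orth nu nu.2 th h1)
      rw [hsumR, hsumR] at h2
      rw [← sub_eq_zero, ← Finset.sum_sub_distrib] at h2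
      rw [← h2]
      refine Finset.sum_congr rfl fun l _ => ?_
      simp only [Jk, map_add, map_mul]
      ring
    · have h2 := congrArg io (hJF.orth th th.2 nu h1)
      rw [hsumR, hsumR] at h2
      rw [← sub_eq_zero, ← Finset.sum_sub_distrib] at h2
      rw [← h2]
      refine Finset.sum_congr rfl fun l _ => ?_
      simp only [Jk, map_add, map_mul]
      ring
  · intro th nu h
    have h1 := hJ.orth n (pe n th) (pe n nu) (fun h2 => h ((pe n).injective h2))
    rw [sum_pe] at h1
    simp only [zal_pe hF hn] at h1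
    exact h1
  · intro th h
    apply hJF.norm th th.2
    apply io_inj
    rw [hsumR, hsumR, ← sub_eq_zero, ← Finset.sum_sub_distrib, ← h]
    refine Finset.sum_congr rfl fun l _ => ?_
    simp only [Jk, map_add, map_mul]
    ring
  · intro th
    change io (JPf D n th 0) - io (JMf D n th 0) = 1
    rw [hJF.oneP th th.2, hJF.oneM th th.2, map_one, map_zero, sub_zero]
  · intro th
    obtain ⟨a, h1, _, h3⟩ := hcoef th ⟨0, pn_pos n⟩
    rw [pe_zero hF hn, h3] at h1
    have h4 : ∀ l : Fin (pn n), (Rf D n l (⟨0, pn_pos n⟩ : Fin (pn n)) : K) =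
        if l = ⟨0, pn_pos n⟩ then (n.factorial : K) else 0 := by
      intro l
      change ((Rf D n l 0 : ℕ) : K) = _
      rw [hJF.R0 l l.2]
      by_cases h5 : (l : ℕ) = 0
      · rw [if_pos h5, if_pos (Fin.ext h5)]
      · rw [if_neg h5, if_neg (fun h6 => h5 (by rw [h6])), Nat.cast_zero]
    simp only [h4, mul_ite, mul_zero, Finset.sum_ite_eq', Finset.mem_univ, if_true] at h1
    have h6 : (n.factorial : K) ≠ 0 := Nat.cast_ne_zero.2 (Nat.factorial_ne_zero n)
    exact mul_right_cancel₀ h6 (by rw [h1, one_mul])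

end Pool.Agent.JackTab
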