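import Pool.Agent.Lib.JackTab.Link

/-!
From the checked tables to the coefficients `h` for `k = 1`.
-/

open Polynomial

namespace Pool.Agent.JackTab

open JackB (K al Fam Orth IsJack zal jn pm)

/-- The ring of the three alphabets. -/
abbrev R3 := MvPolynomial (Fin 3 × ℕ) K

/-- The product of the variables of a partition in the alphabet `a`. -/
noncomputable def mm (a : Fin 3) (n i : ℕ) : R3 := pm K a (pt n i : Multiset ℕ)

/-- `T` as a polynomial in the three alphabets. -/
noncomputable def Tful (D : Dat) (n : ℕ) : R3 :=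
  ev n (mm 1) (mm 0) (mm 2) fun i j k => MvPolynomial.C (io (tf D n i j k))

/-- `h` as a polynomial in the three alphabets. -/
noncomputable def Hful (D : Dat) (n : ℕ) : R3 :=
  ev n (mm 1) (mm 0) (mm 2) fun i j k => MvPolynomial.C (io (hf D n i j k))

theorem ev_fin {R : Type*} [CommSemiring R] (n : ℕ) (x y z : ℕ → ℕ → R) (F : F3 R) :
    ev n x y z F = ∑ i : Fin (pn n), ∑ j : Fin (pn n), ∑ k : Fin (pn n),
      F i j k * (x n i * y n j * z n k) := by
  rw [ev, Finset.sum_range]
  refine Finset.sum_congr rfl fun i _ => ?_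
  rw [Finset.sum_range, Finset.sum_mul]
  refine Finset.sum_congr rfl fun j _ => ?_
  rw [Finset.sum_range, Finset.sum_mul, Finset.sum_mul]
  refine Finset.sum_congr rfl fun k _ => ?_
  ring

theorem ev_add {R : Type*} [CommSemiring R] (n : ℕ) (x y z : ℕ → ℕ → R) (F G : F3 R) :
    ev n x y z (fun i j k => F i j k + G i j k) = ev n x y z F + ev n x y z G := by
  simp only [ev, add_mul, Finset.sum_add_distrib]

theorem ev_smul {R : Type*} [CommSemiring R] (n : ℕ) (x y z : ℕ → ℕ → R) (c : R) (F : F3 R) :
    ev n x y z (fun i j k => c * F i j k) = c * ev n x y z F := by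
  simp only [ev_fin, mul_assoc, Finset.mul_sum]

theorem ev_lin {R : Type*} [CommSemiring R] (n m : ℕ) (x y z : ℕ → ℕ → R) (c : ℕ → R)
    (G : ℕ → F3 R) :
    ev n x y z (fun i j k => ∑ a ∈ Finset.range m, c a * G a i j k) =
      ∑ a ∈ Finset.range m, c a * ev n x y z (G a) := by
  induction m with
  | zero => simp [ev]
  | succ m ih =>
    rw [Finset.sum_range_succ, ← ih, ← ev_smul, ← ev_add]
    simp only [Finset.sum_range_succ]

theorem mm_mul {D : Dat} (hD : Good D) (c : Fin 3) {a m : ℕ} (ham : a + m ≤ D.N) :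
    ∀ i < pn a, ∀ j < pn m, mm c (a + m) (uf D a m i j) = mm c a i * mm c m j := by
  intro i hi j hj
  have h := hD.uperm a m ham i hi j hj
  have h1 : (pt (a + m) (uf D a m i j) : Multiset ℕ) = (pt a i : Multiset ℕ) + (pt m j : Multiset ℕ) := by
    rw [Multiset.coe_add, Multiset.coe_eq_coe]
    exact h
  rw [mm, mm, mm, h1, pm, pm, pm, Multiset.map_add, Multiset.prod_add]

theorem Tful_zero (D : Dat) : Tful D 0 = 1 := by
  have h5 : pn 0 = 1 := rfl
  have h6 : ∀ a, mm a 0 0 = 1 := by
    intro a
    change pm K a ((([] : List ℕ)) : Multiset ℕ) = 1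
    simp
  rw [Tful, ev, h5, Finset.sum_range_one, Finset.sum_range_one, Finset.sum_range_one, h6, h6, h6,
    tf, tt_zero, map_one, map_one]
  simp

theorem Tful_succ {D : Dat} (hD : Good D) {n : ℕ} (hn : n + 1 ≤ D.N) :
    Tful D (n + 1) = ∑ a ∈ Finset.range (n + 1),
      wt (MvPolynomial.C al : R3) n a * (Hful D (a + 1) * Tful D (n - a)) := by
  have h1 : ∀ n i j k, (MvPolynomial.C (io (tf D n i j k)) : R3) =
      tt D (MvPolynomial.C al : R3) (fun n i j k => MvPolynomial.C (io (hf D n i j k))) n i j k := by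
    intro n i j k
    have h2 := map_tt (D := D) ((MvPolynomial.C : K →+* R3).comp io) (X + 1) (hf D) n i j k
    rw [RingHom.comp_apply, RingHom.comp_apply, io_al] at h2
    exact h2
  rw [Tful]
  simp only [h1, tt_succ]
  rw [ev_lin]
  refine Finset.sum_congr rfl fun a ha => ?_
  have ha' := Finset.mem_range.1 ha
  congr 1
  have hs : a + 1 + (n - a) = n + 1 := by omega
  have h3 := ev_cv hD (R := R3) (a := a + 1) (m := n - a) (by omega) (mm 1) (mm 0) (mm 2)
    (mm_mul hD 1 (by omega)) (mm_mul hD 0 (by omega)) (mm_mul hD 2 (by omega))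
    (fun i j k => MvPolynomial.C (io (hf D (a + 1) i j k)))
    (tt D (MvPolynomial.C al : R3) (fun n i j k => MvPolynomial.C (io (hf D n i j k))) (n - a))
  rw [hs] at h3
  rw [h3, Hful, Tful]
  simp only [h1]

theorem io_cf (n : ℕ) : io (cf n) = al ^ n * (n.factorial : K) := by
  rw [cf, map_mul, map_pow, io_al, io_C]

theorem cf_ne (n : ℕ) : io (cf n) ≠ 0 := by
  rw [cf, map_mul, map_pow, io_al, io_C]
  exact mul_ne_zero (pow_ne_zero _ JackB.al_ne_zero)
    (Nat.cast_ne_zero.2 (Nat.factorial_ne_zero n))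

/-- The product identity in the field. -/
theorem prodK {D : Dat} {J : Fam} (hJ : IsJack J) (hF : Facts D) {n : ℕ} (hn : n ≤ D.N)
    (hJF : JF D n)
    (hP : ∀ th < pn n, ∀ m < pn n, ∀ k < pn n, lhs D n th m k = rhs D n th m k)
    (th m k : Fin (pn n)) :
    ∑ l : Fin (pn n), J n (pe n th) (pe n l) * io (wf D n l) * io (tf D n m l k) =
      io (cf n) * (J n (pe n th) (pe n m) * J n (pe n th) (pe n k)) := by
  have h1 := congrArg io (hP th th.2 m m.2 k k.2)
  rw [lhs, rhs, map_add, map_add, map_sum, map_sum, Finset.sum_range, Finset.sum_range] at h1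
  simp only [map_mul, map_add] at h1
  simp only [jack_eq hJ hF hn hJF, Jk]
  have h2 : ∀ l : Fin (pn n), (io (JPf D n th l) - io (JMf D n th l)) * io (wf D n l) * io (tf D n m l k) =
      io (wf D n l) * io (JPf D n th l) * io (tf D n m l k) -
      io (wf D n l) * io (JMf D n th l) * io (tf D n m l k) := by
    intro l
    ring
  simp only [h2, Finset.sum_sub_distrib]
  linear_combination h1

theorem tau_eq {D : Dat} {J : Fam} (hJ : IsJack J) (hF : Facts D) {n : ℕ} (hn : n ≤ D.N)
    (hJF : JF D n)
    (hP : ∀ th < pn n, ∀ m < pn n, ∀ k < pn n, lhs D n th m k = rhs D n th m k) :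
    MvPolynomial.C (io (cf n)) * PowerSeries.coeff n (JackB.tau J (Fin 3)) = Tful D n := by
  have hjn : ∀ th : Fin (pn n), jn J (pe n th) =
      ∑ l : Fin (pn n), J n (pe n th) (pe n l) * J n (pe n th) (pe n l) * io (wf D n l) := by
    intro th
    rw [jn, sum_pe]
    simp only [zal_pe hF hn]
  have hcomp : ∀ a b : Fin (pn n), ∑ th : Fin (pn n),
      (jn J (pe n th))⁻¹ * J n (pe n th) (pe n a) * J n (pe n th) (pe n b) * io (wf D n b) =
      if a = b then 1 else 0 := by
    intro a b
    simp only [hjn]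
    apply complete (fun l : Fin (pn n) => io (wf D n l)) (fun th l => J n (pe n th) (pe n l))
    · intro th nu h
      have h1 := hJ.orth n (pe n th) (pe n nu) (fun h2 => h ((pe n).injective h2))
      rw [sum_pe] at h1
      simp only [zal_pe hF hn] at h1
      exact h1
    · intro th h
      simp only [jack_eq hJ hF hn hJF, Jk] at h
      apply hJF.norm th th.2
      apply io_inj
      rw [map_sum, map_sum, Finset.sum_range, Finset.sum_range, ← sub_eq_zero,
        ← Finset.sum_sub_distrib, ← h]
      refine Finset.sum_congr rfl fun l _ => ?_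
      simp only [map_add, map_mul]
      ring
  have hT : ∀ i j k : Fin (pn n), io (tf D n i j k) = io (cf n) * ∑ th : Fin (pn n),
      (jn J (pe n th))⁻¹ * (J n (pe n th) (pe n j) * J n (pe n th) (pe n i) * J n (pe n th) (pe n k)) := by
    intro i j k
    have h1 : ∀ th : Fin (pn n), io (cf n) * ((jn J (pe n th))⁻¹ * (J n (pe n th) (pe n j) *
        J n (pe n th) (pe n i) * J n (pe n th) (pe n k))) =
        ∑ l : Fin (pn n), io (tf D n i l k) * ((jn J (pe n th))⁻¹ * J n (pe n th) (pe n j) *
          J n (pe n th) (pe n l) * io (wf D n l)) := by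
      intro th
      have h2 := prodK hJ hF hn hJF hP th i k
      have h3 : io (cf n) * ((jn J (pe n th))⁻¹ * (J n (pe n th) (pe n j) *
        J n (pe n th) (pe n i) * J n (pe n th) (pe n k))) =
        (jn J (pe n th))⁻¹ * J n (pe n th) (pe n j) *
          (io (cf n) * (J n (pe n th) (pe n i) * J n (pe n th) (pe n k))) := by ring
      rw [h3, ← h2, Finset.mul_sum]
      refine Finset.sum_congr rfl fun l _ => ?_
      ring
    rw [Finset.mul_sum]
    simp only [h1]
    rw [Finset.sum_comm]
    simp only [← Finset.mul_sum, hcomp]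
    simp
  rw [Tful, ev_fin, JackB.coeff_tau, sum_pe, Finset.mul_sum]
  have hJp : ∀ (th : Fin (pn n)) (a : Fin 3), JackB.Jp J (pe n th) a =
      ∑ l : Fin (pn n), MvPolynomial.C (J n (pe n th) (pe n l)) * mm a n l := by
    intro th a
    rw [JackB.Jp_eq, sum_pe]
    rfl
  have hL : ∀ th : Fin (pn n), (MvPolynomial.C (io (cf n)) *
      (MvPolynomial.C (jn J (pe n th))⁻¹ * ∏ a : Fin 3, JackB.Jp J (pe n th) a) : R3) =
      ∑ i : Fin (pn n), ∑ j : Fin (pn n), ∑ k : Fin (pn n),
        MvPolynomial.C (io (cf n)) * (MvPolynomial.C (jn J (pe n th))⁻¹ *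
        ((MvPolynomial.C (J n (pe n th) (pe n i)) * mm 1 n i) *
          (MvPolynomial.C (J n (pe n th) (pe n j)) * mm 0 n j) *
          (MvPolynomial.C (J n (pe n th) (pe n k)) * mm 2 n k))) := by
    intro th
    rw [Fin.prod_univ_three, hJp, hJp, hJp]
    have h1 : ∀ A B C' : R3, A * B * C' = B * A * C' := by intro A B C'; ring
    rw [h1, Finset.sum_mul_sum, Finset.sum_mul, Finset.mul_sum, Finset.mul_sum]
    refine Finset.sum_congr rfl fun i _ => ?_
    rw [Finset.sum_mul, Finset.mul_sum, Finset.mul_sum]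
    refine Finset.sum_congr rfl fun j _ => ?_
    rw [Finset.mul_sum, Finset.mul_sum, Finset.mul_sum]
  simp only [hL]
  rw [Finset.sum_comm]
  refine Finset.sum_congr rfl fun i _ => ?_
  rw [Finset.sum_comm]
  refine Finset.sum_congr rfl fun j _ => ?_
  rw [Finset.sum_comm]
  refine Finset.sum_congr rfl fun k _ => ?_
  rw [hT, map_mul, map_sum, Finset.mul_sum, Finset.sum_mul]
  refine Finset.sum_congr rfl fun th _ => ?_
  simp only [map_mul]
  ring

theorem Hful_coeff {D : Dat} {n : ℕ} (m : Fin 3 → n.Partition) :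
    (Hful D n).coeff (JackB.mon m) =
      io (hf D n ((pe n).symm (m 1)) ((pe n).symm (m 0)) ((pe n).symm (m 2))) := by
  have hmon : ∀ i j k : Fin (pn n), (mm 1 n i * mm 0 n j * mm 2 n k : R3) =
      MvPolynomial.monomial (JackB.mon ![pe n j, pe n i, pe n k]) 1 := by
    intro i j k
    rw [mm, mm, mm, JackB.pm_eq_monomial, JackB.pm_eq_monomial, JackB.pm_eq_monomial,
      MvPolynomial.monomial_mul, MvPolynomial.monomial_mul, one_mul, one_mul]
    congr 1
    rw [JackB.mon_eq, Fin.sum_univ_three, add_comm (JackB.ex 1 _)]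
    rfl
  have hinj : ∀ i j k : Fin (pn n), JackB.mon ![pe n j, pe n i, pe n k] = JackB.mon m →
      i = (pe n).symm (m 1) ∧ j = (pe n).symm (m 0) ∧ k = (pe n).symm (m 2) := by
    intro i j k h
    have h1 : ∀ a : Fin 3, (![pe n j, pe n i, pe n k] : Fin 3 → n.Partition) a = m a := by
      intro a
      apply Nat.Partition.ext
      rw [Multiset.ext]
      intro x
      have h2 := DFunLike.congr_fun h (a, x)
      rw [JackB.mon_apply, JackB.mon_apply] at h2
      exact h2
    refine ⟨?_, ?_, ?_⟩
    · rw [← h1 1]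
      exact ((pe n).symm_apply_apply i).symm
    · rw [← h1 0]
      exact ((pe n).symm_apply_apply j).symm
    · rw [← h1 2]
      exact ((pe n).symm_apply_apply k).symm
  rw [Hful, ev_fin]
  simp only [hmon, MvPolynomial.coeff_sum, MvPolynomial.coeff_C_mul, MvPolynomial.coeff_monomial]
  rw [Finset.sum_eq_single ((pe n).symm (m 1)), Finset.sum_eq_single ((pe n).symm (m 0)),
    Finset.sum_eq_single ((pe n).symm (m 2))]
  · rw [if_pos, mul_one]
    congr 1
    funext a
    fin_cases a <;> simp
  · intro k _ hk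
    rw [if_neg (fun h => hk (hinj _ _ _ h).2.2), mul_zero]
  · intro h
    exact absurd (Finset.mem_univ _) h
  · intro j _ hj
    refine Finset.sum_eq_zero fun k _ => ?_
    rw [if_neg (fun h => hj (hinj _ _ _ h).2.1), mul_zero]
  · intro h
    exact absurd (Finset.mem_univ _) h
  · intro i _ hi
    refine Finset.sum_eq_zero fun j _ => Finset.sum_eq_zero fun k _ => ?_
    rw [if_neg (fun h => hi (hinj _ _ _ h).1), mul_zero]
  · intro h
    exact absurd (Finset.mem_univ _) h

/-- The facts of a certificate. -/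
structure Cert (D : Dat) : Prop where
  good : Good D
  facts : Facts D
  jf : ∀ n, 1 ≤ n → n ≤ D.N → JF D n
  prod : ∀ n, 1 ≤ n → n ≤ D.N → ∀ th < pn n, ∀ m < pn n, ∀ k < pn n,
    lhs D n th m k = rhs D n th m k

theorem psi_eq {D : Dat} (hC : Cert D) {J : Fam} (hJ : IsJack J) (n : ℕ) (h1 : 1 ≤ n) (hn : n ≤ D.N) :
    PowerSeries.coeff n (JackB.Psi J (Fin 3)) = Hful D n := by
  have h0 := hJ.unital
  set P : PowerSeries R3 := JackB.Psi J (Fin 3) with hP
  set T : PowerSeries R3 := JackB.tau J (Fin 3) with hT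
  have hu : PowerSeries.constantCoeff T = ((1 : R3ˣ) : R3) := by
    rw [Units.val_one, ← PowerSeries.coeff_zero_eq_constantCoeff_apply, JackB.tau_zero h0]
  have hinv := PowerSeries.mul_invOfUnit T 1 hu
  have hPT : P * T = PowerSeries.C (MvPolynomial.C al) * JackB.zd T := by
    rw [hP, JackB.Psi, ← JackB.zd_eq]
    linear_combination (PowerSeries.C (MvPolynomial.C al) * JackB.zd T) * hinv
  have hP0 : PowerSeries.coeff 0 P = 0 := by
    rw [hP, JackB.Psi, ← JackB.zd_eq, mul_assoc, PowerSeries.coeff_C_mul, PowerSeries.coeff_mul,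
      Finset.HasAntidiagonal.antidiagonal_zero, Finset.sum_singleton, JackB.coeff_zd]
    simp
  have hT0 : PowerSeries.coeff 0 T = 1 := JackB.tau_zero h0 _
  have hC0 : ∀ n : ℕ, (MvPolynomial.C (io (cf n)) : R3) ≠ 0 := by
    intro n h
    exact cf_ne n (MvPolynomial.C_eq_zero.1 h)
  have hTn : ∀ n ≤ D.N, MvPolynomial.C (io (cf n)) * PowerSeries.coeff n T = Tful D n := by
    intro n hn
    rcases Nat.eq_zero_or_pos n with h | h
    · subst h
      rw [hT0, Tful_zero, cf]
      simp
    · exact tau_eq hJ hC.facts hn (hC.jf n h hn) (hC.prod n h hn)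
  -- the recursion for the coefficients of tau
  have hrec : ∀ n, n + 1 ≤ D.N → MvPolynomial.C al * (((n + 1 : ℕ) : R3) * PowerSeries.coeff (n + 1) T) =
      ∑ a ∈ Finset.range (n + 1), Hful D (a + 1) * PowerSeries.coeff (n - a) T := by
    intro n hn
    have h2 := Tful_succ hC.good hn
    rw [← hTn (n + 1) hn] at h2
    have h3 : ∀ a ∈ Finset.range (n + 1), wt (MvPolynomial.C al : R3) n a * (Hful D (a + 1) * Tful D (n - a)) =
        MvPolynomial.C (io (cf n)) * (Hful D (a + 1) * PowerSeries.coeff (n - a) T) := by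
      intro a ha
      have ha' := Finset.mem_range.1 ha
      rw [← hTn (n - a) (by omega)]
      have h4 : wt (MvPolynomial.C al : R3) n a * MvPolynomial.C (io (cf (n - a))) =
          MvPolynomial.C (io (cf n)) := by
        rw [wt, io_cf, io_cf]
        have h5 : ((n.descFactorial a : ℕ) : R3) = MvPolynomial.C ((n.descFactorial a : ℕ) : K) := by
          rw [map_natCast]
        rw [h5, ← map_pow, ← map_mul, ← map_mul]
        congr 1
        have h6 : (n - a).factorial * n.descFactorial a = n.factorial :=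
          Nat.factorial_mul_descFactorial (by omega)
        rw [← h6]
        push_cast
        have h7 : al ^ n = al ^ a * al ^ (n - a) := by
          rw [← pow_add]
          congr 1
          omega
        rw [h7]
        ring
      rw [← h4]
      ring
    rw [Finset.sum_congr rfl h3, ← Finset.mul_sum] at h2
    have h8 : (MvPolynomial.C (io (cf (n + 1))) : R3) =
        MvPolynomial.C (io (cf n)) * (MvPolynomial.C al * ((n + 1 : ℕ) : R3)) := by
      rw [io_cf, io_cf, Nat.factorial_succ, pow_succ]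
      have h5 : ((n + 1 : ℕ) : R3) = MvPolynomial.C ((n + 1 : ℕ) : K) := by
        rw [map_natCast]
      rw [h5, ← map_mul, ← map_mul]
      congr 1
      push_cast
      ring
    rw [h8, mul_assoc] at h2
    have h9 := mul_left_cancel₀ (hC0 n) h2
    rw [← h9]
    ring
  -- induction
  induction n using Nat.strong_induction_on with
  | _ n ih =>
    obtain ⟨n, rfl⟩ := Nat.exists_eq_add_of_le' h1
    have h2 := congrArg (PowerSeries.coeff (n + 1)) hPT
    rw [PowerSeries.coeff_C_mul, JackB.coeff_zd, PowerSeries.coeff_mul,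
      Finset.Nat.sum_antidiagonal_eq_sum_range_succ (fun a b => PowerSeries.coeff a P * PowerSeries.coeff b T),
      Finset.sum_range_succ', hP0, zero_mul, add_zero, hrec n hn, Finset.sum_range_succ,
      Finset.sum_range_succ (fun a => Hful D (a + 1) * PowerSeries.coeff (n - a) T)] at h2
    have h3 : ∀ a ∈ Finset.range n, PowerSeries.coeff (a + 1) P * PowerSeries.coeff (n + 1 - (a + 1)) T =
        Hful D (a + 1) * PowerSeries.coeff (n - a) T := by
      intro a ha
      have ha' := Finset.mem_range.1 ha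
      rw [ih (a + 1) (by omega) (by omega) (by omega), Nat.add_sub_add_right]
    rw [Finset.sum_congr rfl h3] at h2
    have h4 := add_left_cancel h2
    rw [Nat.sub_self, Nat.sub_self, hT0, mul_one, mul_one] at h4
    exact h4

/-- The refined statement for `k = 1` up to degree `N`. -/
theorem fine_one {D : Dat} (hC : Cert D) {J : Fam} (hJ : IsJack J) (n : ℕ) (h1 : 1 ≤ n) (hn : n ≤ D.N)
    (m : Fin (1 + 2) → n.Partition) (x : ℕ) :
    ((x : K) * ((m 0).parts.count x : K) / (n : K)) * JackB.hJ J 1 m ∈ JackB.Nb := by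
  have h2 : JackB.hJ J 1 m = io (hf D n ((pe n).symm (m 1)) ((pe n).symm (m 0)) ((pe n).symm (m 2))) := by
    rw [JackB.hJ]
    have h3 := psi_eq hC hJ n h1 hn
    change (PowerSeries.coeff n (JackB.Psi J (Fin 3))).coeff (JackB.mon (ι := Fin 3) m) = _
    rw [h3]
    exact Hful_coeff (D := D) (n := n) m
  rw [h2, hf, map_mul, io_C]
  set j := (pe n).symm (m 0) with hj
  have hm : m 0 = pe n j := by rw [hj, Equiv.apply_symm_apply]
  have hn0 : (n : K) ≠ 0 := Nat.cast_ne_zero.2 (by omega)
  by_cases hx : x ≤ n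
  · obtain ⟨c, hc⟩ := hC.facts.q n hn j j.2 x hx
    have h3 : (x : K) * ((m 0).parts.count x : K) / (n : K) * (qf D n j : K) = (c : K) := by
      rw [hm, pe_parts, Multiset.coe_count]
      have h4 : ((x * (pt n j).count x * qf D n j : ℕ) : K) = ((n * c : ℕ) : K) := by rw [hc]
      push_cast at h4
      field_simp
      linear_combination h4
    rw [← mul_assoc, h3, ← io_C, ← map_mul]
    exact io_mem _
  · have h3 : (m 0).parts.count x = 0 := by
      rw [Multiset.count_eq_zero]
      intro h4
      have := (m 0).le_of_mem_parts h4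
      omega
    rw [h3]
    simp only [Nat.cast_zero, mul_zero, zero_div, zero_mul]
    exact Subsemiring.zero_mem _

end Pool.Agent.JackTab
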