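import Mathlib

/-!
Polynomials with natural coefficients are determined by one value at a large number.
-/

open Polynomial

namespace Pool.Agent.JackTab

theorem kron_aux (B : ℕ) (hB : 0 < B) (m : ℕ) : ∀ P Q : ℕ[X], P.natDegree ≤ m → Q.natDegree ≤ m →
    (∀ i, P.coeff i < B) → (∀ i, Q.coeff i < B) → P.eval B = Q.eval B → P = Q := by
  induction m with
  | zero =>
    intro P Q hP hQ _ _ h
    rw [natDegree_le_iff_degree_le] at hP hQ
    rw [eq_C_of_degree_le_zero hP, eq_C_of_degree_le_zero hQ] at h ⊢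
    simpa using h
  | succ m ih =>
    intro P Q hP hQ cP cQ h
    have e1 := divX_mul_X_add P
    have e2 := divX_mul_X_add Q
    have h1 : P.divX.eval B * B + P.coeff 0 = Q.divX.eval B * B + Q.coeff 0 := by
      have a1 : P.eval B = P.divX.eval B * B + P.coeff 0 := by
        conv_lhs => rw [← e1]
        simp
      have a2 : Q.eval B = Q.divX.eval B * B + Q.coeff 0 := by
        conv_lhs => rw [← e2]
        simp
      rw [← a1, ← a2, h]
    have h0 : P.coeff 0 = Q.coeff 0 := by
      have h2 := congrArg (· % B) h1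
      simp only [Nat.mul_add_mod_self_right, Nat.mod_eq_of_lt (cP 0), Nat.mod_eq_of_lt (cQ 0)] at h2
      exact h2
    have h3 : P.divX.eval B = Q.divX.eval B := by
      rw [h0] at h1
      exact Nat.eq_of_mul_eq_mul_right hB (Nat.add_right_cancel h1)
    have h4 : P.divX = Q.divX := by
      refine ih _ _ ?_ ?_ ?_ ?_ h3
      · rw [natDegree_divX_eq_natDegree_tsub_one]; omega
      · rw [natDegree_divX_eq_natDegree_tsub_one]; omega
      · intro i
        rw [coeff_divX]
        exact cP _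
      · intro i
        rw [coeff_divX]
        exact cQ _
    rw [← e1, ← e2, h4, h0]

theorem kron1 {B : ℕ} {P Q : ℕ[X]} (cP : ∀ i, P.coeff i < B) (cQ : ∀ i, Q.coeff i < B)
    (h : P.eval B = Q.eval B) : P = Q :=
  kron_aux B (lt_of_le_of_lt (Nat.zero_le _) (cP 0)) (max P.natDegree Q.natDegree) P Q
    (le_max_left _ _) (le_max_right _ _) cP cQ h

theorem coeff_le_eval_one (P : ℕ[X]) (i : ℕ) : P.coeff i ≤ P.eval 1 := by
  by_cases h : i ∈ P.support
  · rw [eval_eq_sum, Polynomial.sum]
    simp only [one_pow, mul_one]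
    exact Finset.single_le_sum (fun _ _ => Nat.zero_le _) h
  · rw [Polynomial.notMem_support_iff.1 h]
    exact Nat.zero_le _

theorem kron {B : ℕ} {P Q : ℕ[X]} (hP : P.eval 1 < B) (hQ : Q.eval 1 < B)
    (h : P.eval B = Q.eval B) : P = Q :=
  kron1 (fun i => lt_of_le_of_lt (coeff_le_eval_one P i) hP)
    (fun i => lt_of_le_of_lt (coeff_le_eval_one Q i) hQ) h

/-- Digits at different places are determined by the value. -/
theorem digits {ι : Type*} (s : Finset ι) (e : ι → ℕ) (he : Set.InjOn e s) {B : ℕ}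
    {f g : ι → ℕ} (hf : ∀ i ∈ s, f i < B) (hg : ∀ i ∈ s, g i < B)
    (h : ∑ i ∈ s, f i * B ^ e i = ∑ i ∈ s, g i * B ^ e i) : ∀ i ∈ s, f i = g i := by
  classical
  intro i hi
  have hB : 0 < B := lt_of_le_of_lt (Nat.zero_le _) (hf i hi)
  have key : ∀ (f : ι → ℕ) (j : ι), j ∈ s →
      (∑ i ∈ s, monomial (e i) (f i) : ℕ[X]).coeff (e j) = f j := by
    intro f j hj
    rw [finsetSum_coeff, Finset.sum_eq_single j]
    · simp
    · intro b hb hbj
      rw [coeff_monomial, if_neg]
      intro h
      exact hbj (he hb hj h)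
    · intro h
      exact absurd hj h
  have small : ∀ (f : ι → ℕ), (∀ i ∈ s, f i < B) → ∀ n,
      (∑ i ∈ s, monomial (e i) (f i) : ℕ[X]).coeff n < B := by
    intro f hf n
    by_cases hn : ∃ j ∈ s, e j = n
    · obtain ⟨j, hj, rfl⟩ := hn
      rw [key f j hj]
      exact hf j hj
    · rw [finsetSum_coeff, Finset.sum_eq_zero]
      · exact hB
      · intro j hj
        rw [coeff_monomial, if_neg]
        intro h
        exact hn ⟨j, hj, h⟩
  have e1 : ∀ f : ι → ℕ, (∑ i ∈ s, monomial (e i) (f i) : ℕ[X]).eval B =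
      ∑ i ∈ s, f i * B ^ e i := by
    intro f
    rw [eval_finsetSum]
    simp
  have h2 := kron1 (small f hf) (small g hg) (by rw [e1, e1, h])
  rw [← key f i hi, ← key g i hi, h2]

/-- Two families of polynomials with natural coefficients, packed in one number. -/
theorem kron2 {ι : Type*} (s : Finset ι) (e : ι → ℕ) (he : Set.InjOn e s) {b B : ℕ}
    {F G : ι → ℕ[X]} (hF : ∑ i ∈ s, (F i).eval b < B) (hG : ∑ i ∈ s, (G i).eval b < B)
    (hF1 : ∑ i ∈ s, (F i).eval 1 < b) (hG1 : ∑ i ∈ s, (G i).eval 1 < b)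
    (h : ∑ i ∈ s, (F i).eval b * B ^ e i = ∑ i ∈ s, (G i).eval b * B ^ e i) :
    ∀ i ∈ s, F i = G i := by
  intro i hi
  have h1 := digits s e he (f := fun i => (F i).eval b) (g := fun i => (G i).eval b)
    (fun i hi => lt_of_le_of_lt (Finset.single_le_sum (f := fun i => (F i).eval b) (fun _ _ => Nat.zero_le _) hi) hF)
    (fun i hi => lt_of_le_of_lt (Finset.single_le_sum (f := fun i => (G i).eval b) (fun _ _ => Nat.zero_le _) hi) hG) h i hi
  exact kron
    (lt_of_le_of_lt (Finset.single_le_sum (f := fun i => (F i).eval 1) (fun _ _ => Nat.zero_le _) hi) hF1)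
    (lt_of_le_of_lt (Finset.single_le_sum (f := fun i => (G i).eval 1) (fun _ _ => Nat.zero_le _) hi) hG1) h1

end Pool.Agent.JackTab
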