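import Pool.Agent.Lib.JackTab.JChk

/-!
The product identity.
-/

open Polynomial

namespace Pool.Agent.JackTab

/-- `T` as polynomials in `b`. -/
noncomputable def tf (D : Dat) (n i j k : ℕ) : ℕ[X] := tt D (X + 1) (hf D) n i j k

theorem tf_eval (D : Dat) (b n i j k : ℕ) :
    (tf D n i j k).eval b = tt D (b + 1) (hN D b) n i j k := by
  have h := map_tt (D := D) (evalRingHom b) (X + 1) (hf D) n i j k
  rw [coe_evalRingHom, eval_add, eval_X, eval_one] at h
  exact h

theorem tv_eq (D : Dat) (b B n i j : ℕ) :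
    tv D b B n i j = ∑ k ∈ Finset.range (pn n), (tf D n i j k).eval b * B ^ ef D n k := by
  simp_rw [tf_eval]
  rfl

/-- The constant `α ^ n n!`. -/
noncomputable def cf (n : ℕ) : ℕ[X] := (X + 1) ^ n * C n.factorial

theorem cC_eq (b n : ℕ) : cC b n = (cf n).eval b := by
  rw [cC, cf, fac_eq, eval_mul, eval_C, eval_pow, eval_add, eval_X, eval_one]
  rfl

/-- The two sides of the product identity. -/
noncomputable def lhs (D : Dat) (n th m k : ℕ) : ℕ[X] :=
  ∑ l ∈ Finset.range (pn n), wf D n l * JPf D n th l * tf D n m l k +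
    cf n * (JPf D n th m * JMf D n th k + JMf D n th m * JPf D n th k)

noncomputable def rhs (D : Dat) (n th m k : ℕ) : ℕ[X] :=
  ∑ l ∈ Finset.range (pn n), wf D n l * JMf D n th l * tf D n m l k +
    cf n * (JPf D n th m * JPf D n th k + JMf D n th m * JMf D n th k)

theorem side_eval (D : Dat) (b B n m : ℕ) (w P A A' Q Q' : ℕ → ℕ[X]) (tt' : ℕ → ℕ → ℕ[X])
    (p : ℕ) (c : ℕ[X]) :
    ∑ k ∈ Finset.range p, (∑ l ∈ Finset.range p, w l * P l * tt' l k +
      c * (A m * Q k + A' m * Q' k)).eval b * B ^ ef D n k =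
    ∑ l ∈ Finset.range p, (w l).eval b * (P l).eval b *
      (∑ k ∈ Finset.range p, (tt' l k).eval b * B ^ ef D n k) +
    c.eval b * ((A m).eval b * (∑ k ∈ Finset.range p, (Q k).eval b * B ^ ef D n k) +
      (A' m).eval b * (∑ k ∈ Finset.range p, (Q' k).eval b * B ^ ef D n k)) := by
  simp only [eval_add, eval_mul, eval_finsetSum, add_mul, Finset.sum_add_distrib]
  congr 1
  · simp only [Finset.sum_mul, Finset.mul_sum]
    rw [Finset.sum_comm]
    refine Finset.sum_congr rfl fun l _ => Finset.sum_congr rfl fun k _ => ?_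
    ring
  · simp only [Finset.mul_sum, mul_add, add_mul, Finset.sum_add_distrib]
    congr 1
    · refine Finset.sum_congr rfl fun k _ => ?_
      ring
    · refine Finset.sum_congr rfl fun k _ => ?_
      ring

theorem jchk_pair {D : Dat} (hD : Shape D) {b B n : ℕ} (hn : n ≤ D.N) {ths : List ℕ}
    (h : jchk D b B n (tab2 n (tv D b B n)) ths = true) :
    ∀ th ∈ ths, ∀ m < pn n,
      ∑ k ∈ Finset.range (pn n), (lhs D n th m k).eval b * B ^ ef D n k =
      ∑ k ∈ Finset.range (pn n), (rhs D n th m k).eval b * B ^ ef D n k := by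
  intro th hth m hm
  simp only [lhs, rhs]
  rw [side_eval D b B n m (wf D n) (JPf D n th) (JPf D n th) (JMf D n th) (JMf D n th) (JPf D n th)
      (fun l k => tf D n m l k) (pn n) (cf n),
    side_eval D b B n m (wf D n) (JMf D n th) (JPf D n th) (JMf D n th) (JPf D n th) (JMf D n th)
      (fun l k => tf D n m l k) (pn n) (cf n)]
  rw [jchk] at h
  change allL _ ths = true at h
  rw [allL_eq] at h
  have h1 := h th hth
  rw [pows_eq hD B hn, wL_eq hD b hn, jP_eq hD b hn, jM_eq hD b hn, cC_eq, tab2] at h1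
  rw [jchk1] at h1
  simp only [zipL_range, dot_range, allL_eq] at h1
  have h2 := h1 (((JPf D n th m).eval b, (JMf D n th m).eval b),
    (List.range (pn n)).map fun j => tv D b B n m j)
    (List.mem_map.2 ⟨m, List.mem_range.2 hm, rfl⟩)
  simp only [dot_range, beq_iff] at h2
  simp only [tv_eq] at h2
  exact h2

theorem bchk_pair {D : Dat} (hD : Shape D) {b n bound : ℕ} (hn : n ≤ D.N)
    (h : bchk D b n bound
      (∑ i ∈ Finset.range (pn n), ∑ j ∈ Finset.range (pn n), tv D b 1 n i j) = true) :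
    ∀ th < pn n, ∀ m < pn n,
      ∑ k ∈ Finset.range (pn n), (lhs D n th m k).eval b < bound ∧
      ∑ k ∈ Finset.range (pn n), (rhs D n th m k).eval b < bound := by
  intro th hth m hm
  have hB : ∀ f : ℕ → ℕ[X], ∑ k ∈ Finset.range (pn n), (f k).eval b =
      ∑ k ∈ Finset.range (pn n), (f k).eval b * 1 ^ ef D n k := by
    intro f
    refine Finset.sum_congr rfl fun k _ => ?_
    rw [one_pow, mul_one]
  rw [bchk] at h
  change allL _ (rng (List.length (nth [] D.P n))) = true at h
  rw [nth_eq, hD.P n hn, allL_rng] at h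
  have h1 := h th hth
  rw [jP_eq hD b hn, jM_eq hD b hn, wL_eq hD b hn, cC_eq] at h1
  simp only [dot_range, sumL_range, blt_iff] at h1
  set SP := ∑ l ∈ Finset.range (pn n), (JPf D n th l).eval b with hSP
  set SM := ∑ l ∈ Finset.range (pn n), (JMf D n th l).eval b with hSM
  set WP := ∑ l ∈ Finset.range (pn n), (wf D n l).eval b * (JPf D n th l).eval b with hWP
  set WM := ∑ l ∈ Finset.range (pn n), (wf D n l).eval b * (JMf D n th l).eval b with hWM
  set TT := ∑ i ∈ Finset.range (pn n), ∑ j ∈ Finset.range (pn n), tv D b 1 n i j with hTT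
  have h2 : (WP + WM) * TT + (cf n).eval b * ((SP + SM) * (SP + SM)) < bound := h1
  have ht : ∀ l ∈ Finset.range (pn n), ∑ k ∈ Finset.range (pn n), (tf D n m l k).eval b * 1 ^ ef D n k ≤ TT := by
    intro l hl
    rw [← tv_eq]
    calc tv D b 1 n m l ≤ ∑ j ∈ Finset.range (pn n), tv D b 1 n m j :=
          Finset.single_le_sum (f := fun j => tv D b 1 n m j) (fun _ _ => Nat.zero_le _) hl
      _ ≤ TT := Finset.single_le_sum (f := fun i => ∑ j ∈ Finset.range (pn n), tv D b 1 n i j)
          (fun _ _ => Nat.zero_le _) (Finset.mem_range.2 hm)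
  have hsum : ∀ P : ℕ → ℕ[X], ∑ l ∈ Finset.range (pn n), (wf D n l).eval b * (P l).eval b *
      (∑ k ∈ Finset.range (pn n), (tf D n m l k).eval b * 1 ^ ef D n k) ≤
      (∑ l ∈ Finset.range (pn n), (wf D n l).eval b * (P l).eval b) * TT := by
    intro P
    rw [Finset.sum_mul]
    exact Finset.sum_le_sum fun l hl => Nat.mul_le_mul_left _ (ht l hl)
  have hm1 : (JPf D n th m).eval b ≤ SP :=
    Finset.single_le_sum (f := fun l => (JPf D n th l).eval b) (fun _ _ => Nat.zero_le _) (Finset.mem_range.2 hm)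
  have hm2 : (JMf D n th m).eval b ≤ SM :=
    Finset.single_le_sum (f := fun l => (JMf D n th l).eval b) (fun _ _ => Nat.zero_le _) (Finset.mem_range.2 hm)
  constructor
  · rw [hB]
    simp only [lhs]
    rw [side_eval D b 1 n m (wf D n) (JPf D n th) (JPf D n th) (JMf D n th) (JMf D n th) (JPf D n th)
      (fun l k => tf D n m l k) (pn n) (cf n)]
    rw [← hB, ← hB, ← hSP, ← hSM]
    have h3 : (JPf D n th m).eval b * SM + (JMf D n th m).eval b * SP ≤ (SP + SM) * (SP + SM) := by
      nlinarith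
    calc _ ≤ WP * TT + (cf n).eval b * ((SP + SM) * (SP + SM)) :=
          Nat.add_le_add (hsum _) (Nat.mul_le_mul_left _ h3)
      _ ≤ (WP + WM) * TT + (cf n).eval b * ((SP + SM) * (SP + SM)) :=
          Nat.add_le_add_right (Nat.mul_le_mul_right _ (Nat.le_add_right _ _)) _
      _ < bound := h2
  · rw [hB]
    simp only [rhs]
    rw [side_eval D b 1 n m (wf D n) (JMf D n th) (JPf D n th) (JMf D n th) (JPf D n th) (JMf D n th)
      (fun l k => tf D n m l k) (pn n) (cf n)]
    rw [← hB, ← hB, ← hSP, ← hSM]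
    have h3 : (JPf D n th m).eval b * SP + (JMf D n th m).eval b * SM ≤ (SP + SM) * (SP + SM) := by
      nlinarith
    calc _ ≤ WM * TT + (cf n).eval b * ((SP + SM) * (SP + SM)) :=
          Nat.add_le_add (hsum _) (Nat.mul_le_mul_left _ h3)
      _ ≤ (WP + WM) * TT + (cf n).eval b * ((SP + SM) * (SP + SM)) :=
          Nat.add_le_add_right (Nat.mul_le_mul_right _ (Nat.le_add_left _ _)) _
      _ < bound := h2

/-- The product identity. -/
theorem prod_of {D : Dat} (hD : Good D) (hF : Facts D) {n : ℕ} (hn : n ≤ D.N) {ths : List ℕ}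
    (h : jchk D D.b D.B n (tab2 n (tv D D.b D.B n)) ths = true)
    (h1 : bchk D D.b n D.B
      (∑ i ∈ Finset.range (pn n), ∑ j ∈ Finset.range (pn n), tv D D.b 1 n i j) = true)
    (h2 : bchk D 1 n D.b
      (∑ i ∈ Finset.range (pn n), ∑ j ∈ Finset.range (pn n), tv D 1 1 n i j) = true) :
    ∀ th ∈ ths, th < pn n → ∀ m < pn n, ∀ k < pn n, lhs D n th m k = rhs D n th m k := by
  intro th hth hth' m hm k hk
  have he : Set.InjOn (ef D n) (Finset.range (pn n) : Finset ℕ) := by
    intro i hi j hj hij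
    rw [Finset.coe_range, Set.mem_Iio] at hi hj
    rcases lt_trichotomy i j with h3 | h3 | h3
    · exact absurd hij.symm (hF.e n hn j hj i h3)
    · exact h3
    · exact absurd hij (hF.e n hn i hi j h3)
  have b1 := bchk_pair hD.toShape hn h1 th hth' m hm
  have b2 := bchk_pair hD.toShape hn h2 th hth' m hm
  exact kron2 (Finset.range (pn n)) (ef D n) he (F := fun k => lhs D n th m k)
    (G := fun k => rhs D n th m k) b1.1 b1.2 b2.1 b2.2
    (jchk_pair hD.toShape hn h th hth m hm) k (Finset.mem_range.2 hk)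

end Pool.Agent.JackTab
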