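import Pool.Agent.Lib.JackTab.Comp
import Pool.Agent.Lib.JackTab.Poly

/-!
The meaning of the tables.
-/

open Polynomial

namespace Pool.Agent.JackTab

/-! Digits. -/

/-- The polynomial whose coefficients are the first `n` digits of `x`. -/
noncomputable def dig (W : ℕ) : ℕ → ℕ → ℕ[X]
  | 0, _ => 0
  | n + 1, x => C (x % W) + X * dig W n (x / W)

theorem dig_zero (W n : ℕ) : dig W n 0 = 0 := by
  induction n with
  | zero => rfl
  | succ n ih => simp [dig, ih]

theorem dig_eval (W b n x : ℕ) : (dig W n x).eval b = ed W b n x := by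
  induction n generalizing x with
  | zero => simp [dig, ed]
  | succ n ih =>
    have h : ed W b (n + 1) x = cond (Nat.beq x 0) 0 (x % W + b * ed W b n (x / W)) := rfl
    rw [h]
    by_cases hx : x = 0
    · rw [beq_iff.2 hx, hx, dig_zero]
      simp
    · rw [Bool.eq_false_iff.2 (fun h => hx (beq_iff.1 h)), cond_false, dig, eval_add, eval_C,
        eval_mul, eval_X, ih]

theorem dig_one {W : ℕ} (hW : 1 < W) (n : ℕ) : dig W (n + 1) 1 = 1 := by
  rw [dig, Nat.mod_eq_of_lt hW, Nat.div_eq_of_lt hW, dig_zero]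
  simp

/-- The chunk `k` of a row. -/
def chunk (W n x k : ℕ) : ℕ := x / W / (W ^ n) ^ k % W ^ n

theorem vals0_eq (W Wn b n p x : ℕ) :
    vals0 W Wn b n p x = (List.range p).map fun k => ed W b n (x / Wn ^ k % Wn) := by
  induction p generalizing x with
  | zero => rfl
  | succ p ih =>
    have h : vals0 W Wn b n (p + 1) x =
        ed W b n (x % Wn) :: vals0 W Wn b n p (x / Wn) := rfl
    rw [h, ih, List.range_succ_eq_map, List.map_cons, List.map_map]
    congr 1
    · simp
    · apply List.map_congr_left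
      intro k _
      simp only [Function.comp]
      rw [Nat.div_div_eq_div_mul, Nat.succ_eq_add_one, pow_succ']

theorem vals_eq (W b n p x : ℕ) :
    vals W (W ^ n) b n p x =
      (List.range p).map fun k => (dig W n (chunk W n x k)).eval b := by
  rw [vals, vals0_eq]
  apply List.map_congr_left
  intro k _
  rw [dig_eval]
  rfl

/-! The data as functions. -/

variable (D : Dat)

def ef (n i : ℕ) : ℕ := (D.e.getD n []).getD i 0
def qf (n i : ℕ) : ℕ := (D.q.getD n []).getD i 0
def zf (n i : ℕ) : ℕ := (D.z.getD n []).getD i 0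
def lf (n i : ℕ) : ℕ := (D.l.getD n []).getD i 0
def uf (a m i j : ℕ) : ℕ := (((D.U.getD a []).getD m []).getD i []).getD j 0
def spf (n a i : ℕ) : List (ℕ × ℕ) := ((D.S.getD n []).getD i []).getD a []
def Jf (n th : ℕ) : ℕ × ℕ := (D.J.getD n []).getD th (0, 0)
def Hf (n i j : ℕ) : ℕ := ((D.H.getD n []).getD i []).getD j 0

/-- The polynomials of the tables. -/
noncomputable def JPf (n th l : ℕ) : ℕ[X] := dig D.W n (chunk D.W n (Jf D n th).1 l)
noncomputable def JMf (n th l : ℕ) : ℕ[X] := dig D.W n (chunk D.W n (Jf D n th).2 l)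
noncomputable def Ef (n i j k : ℕ) : ℕ[X] := dig D.W n (chunk D.W n (Hf D n i j) k)
noncomputable def hf (n i j k : ℕ) : ℕ[X] := C (qf D n j) * Ef D n i j k

/-- The form of the lists of the data. -/
structure Shape : Prop where
  P : ∀ n ≤ D.N, D.P.getD n [] = pl n
  e : ∀ n ≤ D.N, (D.e.getD n []).length = pn n
  q : ∀ n ≤ D.N, (D.q.getD n []).length = pn n
  z : ∀ n ≤ D.N, (D.z.getD n []).length = pn n
  l : ∀ n ≤ D.N, (D.l.getD n []).length = pn n
  J : ∀ n ≤ D.N, (D.J.getD n []).length = pn n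
  H : ∀ n ≤ D.N, (D.H.getD n []).length = pn n
  H2 : ∀ n ≤ D.N, ∀ i < pn n, ((D.H.getD n []).getD i []).length = pn n
  S0 : D.S.length = D.N + 1
  S : ∀ n ≤ D.N, (D.S.getD n []).length = pn n
  S2 : ∀ n ≤ D.N, ∀ i < pn n, ((D.S.getD n []).getD i []).length = n

/-- The splittings computed from the union table. -/
def spc (n a i : ℕ) : List (ℕ × ℕ) :=
  (List.range (pn (a + 1))).flatMap fun x => (List.range (pn (n - 1 - a))).flatMap fun y =>
    if uf D (a + 1) (n - 1 - a) x y = i then [(x, y)] else []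

/-- Facts about unions and splittings. -/
structure Good : Prop extends Shape D where
  sp : ∀ n ≤ D.N, ∀ a < n, ∀ i < pn n, spf D n a i = spc D n a i
  ult : ∀ a m, a + m ≤ D.N → ∀ i < pn a, ∀ j < pn m, uf D a m i j < pn (a + m)
  uperm : ∀ a m, a + m ≤ D.N → ∀ i < pn a, ∀ j < pn m,
    (pt (a + m) (uf D a m i j)).Perm (pt a i ++ pt m j)
  ue : ∀ a m, a + m ≤ D.N → ∀ i < pn a, ∀ j < pn m,
    ef D (a + m) (uf D a m i j) = ef D a i + ef D m j

theorem getD_list {α : Type} (d : α) (l : List α) (p : ℕ) (h : l.length = p) :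
    l = (List.range p).map fun i => l.getD i d := by
  have := list_eq_range p d l h
  simp_rw [nth_eq] at this
  exact this

/-! Convolution. -/

variable {D}

/-- One-dimensional convolution: sum over the pairs of indices whose union is `i`. -/
noncomputable def c1 (D : Dat) {M : Type*} [AddCommMonoid M] (a m : ℕ) (f : ℕ → ℕ → M) (i : ℕ) : M :=
  ∑ x ∈ Finset.range (pn a), ∑ y ∈ Finset.range (pn m), if uf D a m x y = i then f x y else 0

theorem c1_congr {M : Type*} [AddCommMonoid M] (a m : ℕ) {f g : ℕ → ℕ → M} (i : ℕ)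
    (h : ∀ x < pn a, ∀ y < pn m, f x y = g x y) : c1 D a m f i = c1 D a m g i := by
  refine Finset.sum_congr rfl fun x hx => Finset.sum_congr rfl fun y hy => ?_
  rw [h x (Finset.mem_range.1 hx) y (Finset.mem_range.1 hy)]

theorem c1_sum (hD : Good D) {R : Type*} [CommSemiring R] {a m : ℕ} (ham : a + m ≤ D.N)
    (f : ℕ → ℕ → R) (xn xa xm : ℕ → R)
    (hx : ∀ i < pn a, ∀ j < pn m, xn (uf D a m i j) = xa i * xm j) :
    ∑ i ∈ Finset.range (pn (a + m)), c1 D a m f i * xn i =
      ∑ x ∈ Finset.range (pn a), ∑ y ∈ Finset.range (pn m), f x y * (xa x * xm y) := by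
  simp_rw [c1, Finset.sum_mul]
  rw [Finset.sum_comm]
  refine Finset.sum_congr rfl fun x hx' => ?_
  rw [Finset.sum_comm]
  refine Finset.sum_congr rfl fun y hy' => ?_
  have h1 := Finset.mem_range.1 hx'
  have h2 := Finset.mem_range.1 hy'
  rw [Finset.sum_eq_single (uf D a m x y)]
  · rw [if_pos rfl, hx x h1 y h2]
  · intro i _ hi
    rw [if_neg (Ne.symm hi), zero_mul]
  · intro h
    exact absurd (Finset.mem_range.2 (hD.ult a m ham x h1 y h2)) h

theorem sum_flatMap' {α : Type*} (l : List α) (f : α → List ℕ) :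
    (l.flatMap f).sum = (l.map fun a => (f a).sum).sum := by
  induction l with
  | nil => rfl
  | cons a l ih => rw [List.flatMap_cons, List.sum_append, List.map_cons, List.sum_cons, ih]

theorem sumL_sp (hD : Good D) {n a i : ℕ} (hn : n ≤ D.N) (ha : a < n) (hi : i < pn n)
    (g : ℕ × ℕ → ℕ) :
    sumL g (spf D n a i) = c1 D (a + 1) (n - 1 - a) (fun x y => g (x, y)) i := by
  rw [hD.sp n hn a ha i hi, sumL_eq, spc, List.map_flatMap, sum_flatMap', c1,
    ← sum_range_list]
  congr 1
  apply List.map_congr_left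
  intro x _
  rw [List.map_flatMap, sum_flatMap', ← sum_range_list]
  congr 1
  apply List.map_congr_left
  intro y _
  split_ifs <;> simp

/-! Three-dimensional convolution and the recursion. -/

/-- Functions of three indices. -/
abbrev F3 (R : Type*) := ℕ → ℕ → ℕ → R

noncomputable def cv (D : Dat) {R : Type*} [CommSemiring R] (a m : ℕ) (F G : F3 R) : F3 R :=
  fun i j k => c1 D a m (fun i1 i2 => c1 D a m (fun j1 j2 => c1 D a m (fun k1 k2 =>
    F i1 j1 k1 * G i2 j2 k2) k) j) i

/-- The weights of the recursion. -/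
def wt {R : Type*} [CommSemiring R] (al : R) (m a : ℕ) : R := (m.descFactorial a : R) * al ^ a

/-- The recursion `T_{n+1} = Σ_a wt n a * h_{a+1} * T_{n-a}`. -/
noncomputable def tt (D : Dat) {R : Type*} [CommSemiring R] (al : R) (h : ℕ → F3 R) : ℕ → F3 R
  | 0 => fun _ _ _ => 1
  | n + 1 => fun i j k => ∑ a : Fin (n + 1),
      wt al n a * cv D (a + 1) (n - a) (h (a + 1)) (tt D al h (n - a)) i j k

theorem tt_zero {R : Type*} [CommSemiring R] (al : R) (h : ℕ → F3 R) (i j k : ℕ) :
    tt D al h 0 i j k = 1 := by rw [tt]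

theorem tt_succ {R : Type*} [CommSemiring R] (al : R) (h : ℕ → F3 R) (n i j k : ℕ) :
    tt D al h (n + 1) i j k = ∑ a ∈ Finset.range (n + 1),
      wt al n a * cv D (a + 1) (n - a) (h (a + 1)) (tt D al h (n - a)) i j k := by
  rw [tt, ← Fin.sum_univ_eq_sum_range (fun a =>
    wt al n a * cv D (a + 1) (n - a) (h (a + 1)) (tt D al h (n - a)) i j k)]

theorem map_c1 {R S : Type*} [CommSemiring R] [CommSemiring S] (φ : R →+* S) (a m : ℕ)
    (f : ℕ → ℕ → R) (i : ℕ) : φ (c1 D a m f i) = c1 D a m (fun x y => φ (f x y)) i := by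
  rw [c1, c1, map_sum]
  refine Finset.sum_congr rfl fun x _ => ?_
  rw [map_sum]
  refine Finset.sum_congr rfl fun y _ => ?_
  split_ifs <;> simp

theorem map_tt {R S : Type*} [CommSemiring R] [CommSemiring S] (φ : R →+* S) (al : R)
    (h : ℕ → F3 R) (n : ℕ) : ∀ i j k, φ (tt D al h n i j k) =
      tt D (φ al) (fun n i j k => φ (h n i j k)) n i j k := by
  induction n using Nat.strong_induction_on with
  | _ n ih =>
    intro i j k
    cases n with
    | zero => rw [tt_zero, tt_zero, map_one]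
    | succ n =>
      rw [tt_succ, tt_succ, map_sum]
      refine Finset.sum_congr rfl fun a _ => ?_
      rw [map_mul, wt, wt, map_mul, map_pow, map_natCast, cv, cv, map_c1]
      congr 2
      funext i1 i2
      rw [map_c1]
      congr 1
      funext j1 j2
      rw [map_c1]
      congr 1
      funext k1 k2
      rw [map_mul, ih (n - a) (by omega)]

/-- Sum against monomials. -/
noncomputable def ev {R : Type*} [CommSemiring R] (n : ℕ) (x y z : ℕ → ℕ → R) (F : F3 R) : R :=
  ∑ i ∈ Finset.range (pn n), (∑ j ∈ Finset.range (pn n), (∑ k ∈ Finset.range (pn n),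
    F i j k * z n k) * y n j) * x n i

theorem ev_cv (hD : Good D) {R : Type*} [CommSemiring R] {a m : ℕ} (ham : a + m ≤ D.N)
    (x y z : ℕ → ℕ → R)
    (hx : ∀ i < pn a, ∀ j < pn m, x (a + m) (uf D a m i j) = x a i * x m j)
    (hy : ∀ i < pn a, ∀ j < pn m, y (a + m) (uf D a m i j) = y a i * y m j)
    (hz : ∀ i < pn a, ∀ j < pn m, z (a + m) (uf D a m i j) = z a i * z m j) (F G : F3 R) :
    ev (a + m) x y z (cv D a m F G) = ev a x y z F * ev m x y z G := by
  have c1mul : ∀ (f : ℕ → ℕ → R) (i : ℕ) (c : R), c1 D a m f i * c = c1 D a m (fun u v => f u v * c) i := by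
    intro f i c
    rw [c1, c1, Finset.sum_mul]
    refine Finset.sum_congr rfl fun u _ => ?_
    rw [Finset.sum_mul]
    refine Finset.sum_congr rfl fun v _ => ?_
    split_ifs <;> simp
  have c1sum : ∀ (s : Finset ℕ) (f : ℕ → ℕ → ℕ → R) (i : ℕ),
      ∑ j ∈ s, c1 D a m (f j) i = c1 D a m (fun u v => ∑ j ∈ s, f j u v) i := by
    intro s f i
    simp_rw [c1]
    rw [Finset.sum_comm]
    refine Finset.sum_congr rfl fun u _ => ?_
    rw [Finset.sum_comm]
    refine Finset.sum_congr rfl fun v _ => ?_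
    split_ifs <;> simp
  rw [ev]
  have h1 : ∀ i, (∑ j ∈ Finset.range (pn (a + m)), (∑ k ∈ Finset.range (pn (a + m)),
      cv D a m F G i j k * z (a + m) k) * y (a + m) j) =
      c1 D a m (fun i1 i2 => ∑ j1 ∈ Finset.range (pn a), ∑ j2 ∈ Finset.range (pn m),
        (∑ k1 ∈ Finset.range (pn a), ∑ k2 ∈ Finset.range (pn m),
          F i1 j1 k1 * G i2 j2 k2 * (z a k1 * z m k2)) * (y a j1 * y m j2)) i := by
    intro i
    simp_rw [cv, c1mul, c1sum, c1mul, c1sum]
    congr 1
    funext i1 i2
    rw [← c1_sum hD ham _ (y (a + m)) (y a) (y m) hy]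
    refine Finset.sum_congr rfl fun j _ => ?_
    rw [c1mul]
    congr 1
    funext j1 j2
    congr 1
    rw [← c1_sum hD ham _ (z (a + m)) (z a) (z m) hz]
    refine Finset.sum_congr rfl fun k _ => ?_
    rw [c1mul]
  simp_rw [h1]
  rw [c1_sum hD ham _ (x (a + m)) (x a) (x m) hx, ev, ev, Finset.sum_mul_sum]
  refine Finset.sum_congr rfl fun i1 _ => Finset.sum_congr rfl fun i2 _ => ?_
  have e1 : ∀ (A B : R) , A * (x a i1) * (B * x m i2) = A * B * (x a i1 * x m i2) := by
    intro A B; ring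
  rw [e1, Finset.sum_mul_sum]
  congr 1
  refine Finset.sum_congr rfl fun j1 _ => Finset.sum_congr rfl fun j2 _ => ?_
  have e2 : ∀ (A B : R) , A * (y a j1) * (B * y m j2) = A * B * (y a j1 * y m j2) := by
    intro A B; ring
  rw [e2, Finset.sum_mul_sum]
  congr 1
  refine Finset.sum_congr rfl fun k1 _ => Finset.sum_congr rfl fun k2 _ => ?_
  ring

end Pool.Agent.JackTab
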