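import Pool.Agent.Lib.JackTab.Sem

/-!
The computed tables are the tables of `Sem`.
-/

open Polynomial

namespace Pool.Agent.JackTab

variable {D : Dat}

theorem zipL_range' {α β γ : Type} (g : α → β → γ) (f : ℕ → α) (f' : ℕ → β) (p q : ℕ) :
    zipL g ((List.range p).map f) ((List.range q).map f') =
      (List.range (min p q)).map fun i => g (f i) (f' i) := by
  rw [zipL_eq]
  apply List.ext_getElem
  · simp
  · intro i h1 h2
    simp

/-- Values of `h`. -/
noncomputable def hN (D : Dat) (b : ℕ) : ℕ → F3 ℕ := fun n i j k => (hf D n i j k).eval b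

/-- Packed values of `h`. -/
noncomputable def hv (D : Dat) (b B n i j : ℕ) : ℕ :=
  ∑ k ∈ Finset.range (pn n), hN D b n i j k * B ^ ef D n k

/-- Packed values of `T`. -/
noncomputable def tv (D : Dat) (b B n i j : ℕ) : ℕ :=
  ∑ k ∈ Finset.range (pn n), tt D (b + 1) (hN D b) n i j k * B ^ ef D n k

/-- The table of a function of two indices. -/
def tab2 (n : ℕ) (f : ℕ → ℕ → ℕ) : List (List ℕ) :=
  (List.range (pn n)).map fun i => (List.range (pn n)).map fun j => f i j

theorem nth_getD {α : Type} (d : α) (l : List α) (i : ℕ) : nth d l i = l.getD i d := nth_eq d l i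

theorem pows_eq (hD : Shape D) (B : ℕ) {n : ℕ} (hn : n ≤ D.N) :
    pows B (nth [] D.e n) = (List.range (pn n)).map fun k => B ^ ef D n k := by
  rw [pows, nth_getD, getD_list 0 _ _ (hD.e n hn), mapL_range]
  rfl

theorem hLev_eq (hD : Shape D) (b B : ℕ) {n : ℕ} (hn : n ≤ D.N) :
    hLev D b B n = tab2 n (hv D b B n) := by
  rw [hLev, hTab, pows_eq hD B hn]
  rw [nth_getD, nth_getD, nth_getD, hD.P n hn]
  change mapL (fun row => zipL (fun qj x => Nat.mul qj (dot (vals D.W (D.W ^ n) b n (pn n) x)
    ((List.range (pn n)).map fun k => B ^ ef D n k))) (D.q.getD n []) row) (D.H.getD n []) = _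
  rw [getD_list [] _ _ (hD.H n hn), mapL_range, getD_list 0 _ _ (hD.q n hn), tab2]
  apply List.map_congr_left
  intro i hi
  rw [getD_list 0 _ _ (hD.H2 n hn i (List.mem_range.1 hi)), zipL_range]
  apply List.map_congr_left
  intro j _
  rw [vals_eq, dot_range, hv]
  change (qf D n j) * _ = _
  rw [Finset.mul_sum]
  refine Finset.sum_congr rfl fun k _ => ?_
  rw [hN, hf, eval_mul, eval_C, ← mul_assoc]
  rfl

theorem rng_eq (p : ℕ) : rng p = List.range p := by
  have h : ∀ p i, (Nat.rec (fun _ => []) (fun _ ih i => List.cons i (ih (Nat.succ i))) p : ℕ → List ℕ) i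
      = (List.range p).map fun k => i + k := by
    intro p
    induction p with
    | zero => intro i; rfl
    | succ p ih =>
      intro i
      have h1 : (Nat.rec (fun _ => []) (fun _ ih i => List.cons i (ih (Nat.succ i))) (p + 1) : ℕ → List ℕ) i
        = i :: (Nat.rec (fun _ => []) (fun _ ih i => List.cons i (ih (Nat.succ i))) p : ℕ → List ℕ) (i + 1) := rfl
      rw [h1, ih, List.range_succ_eq_map, List.map_cons, List.map_map]
      congr 1
      apply List.map_congr_left
      intro k _
      simp only [Function.comp]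
      omega
  rw [rng, h]
  simp

theorem wts_eq (al f m acc : ℕ) :
    wts al f m acc = (List.range f).map fun a => acc * wt al m a := by
  induction f generalizing m acc with
  | zero => rfl
  | succ f ih =>
    have h1 : wts al (f + 1) m acc = acc :: wts al f (m - 1) (acc * (m * al)) := rfl
    rw [h1, ih, List.range_succ_eq_map, List.map_cons, List.map_map]
    congr 1
    · simp [wt]
    · apply List.map_congr_left
      intro a _
      simp only [Function.comp, wt, Nat.succ_eq_add_one, Nat.cast_id]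
      have h2 : m.descFactorial (a + 1) = m * (m - 1).descFactorial a := by
        cases m with
        | zero => simp
        | succ m => rw [Nat.succ_descFactorial_succ]; rfl
      rw [h2, pow_succ]
      ring

theorem tv_succ (hD : Good D) (b B : ℕ) {n : ℕ} (hn : n + 1 ≤ D.N) (i j : ℕ) :
    tv D b B (n + 1) i j = ∑ a ∈ Finset.range (n + 1), wt (b + 1) n a *
      c1 D (a + 1) (n - a) (fun i1 i2 => c1 D (a + 1) (n - a) (fun j1 j2 =>
        hv D b B (a + 1) i1 j1 * tv D b B (n - a) i2 j2) j) i := by
  rw [tv]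
  simp_rw [tt_succ, Finset.sum_mul]
  rw [Finset.sum_comm]
  refine Finset.sum_congr rfl fun a ha => ?_
  have ha' := Finset.mem_range.1 ha
  have hs : a + 1 + (n - a) = n + 1 := by omega
  have c1mul : ∀ (f : ℕ → ℕ → ℕ) (i : ℕ) (c : ℕ), c1 D (a + 1) (n - a) f i * c =
      c1 D (a + 1) (n - a) (fun u v => f u v * c) i := by
    intro f i c
    rw [c1, c1, Finset.sum_mul]
    refine Finset.sum_congr rfl fun u _ => ?_
    rw [Finset.sum_mul]
    refine Finset.sum_congr rfl fun v _ => ?_
    split_ifs <;> simp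
  have c1sum : ∀ (s : Finset ℕ) (f : ℕ → ℕ → ℕ → ℕ) (i : ℕ),
      ∑ j ∈ s, c1 D (a + 1) (n - a) (f j) i = c1 D (a + 1) (n - a) (fun u v => ∑ j ∈ s, f j u v) i := by
    intro s f i
    simp_rw [c1]
    rw [Finset.sum_comm]
    refine Finset.sum_congr rfl fun u _ => ?_
    rw [Finset.sum_comm]
    refine Finset.sum_congr rfl fun v _ => ?_
    split_ifs <;> simp
  simp_rw [mul_assoc]
  rw [← Finset.mul_sum]
  congr 1
  simp_rw [cv, c1mul, c1sum]
  congr 1
  funext i1 i2
  congr 1
  funext j1 j2
  have hx : ∀ u < pn (a + 1), ∀ v < pn (n - a), B ^ ef D (n + 1) (uf D (a + 1) (n - a) u v) =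
      B ^ ef D (a + 1) u * B ^ ef D (n - a) v := by
    intro u hu v hv
    have := hD.ue (a + 1) (n - a) (by omega) u hu v hv
    rw [hs] at this
    rw [this, pow_add]
  have key := c1_sum hD (a := a + 1) (m := n - a) (by omega)
    (fun k1 k2 => hN D b (a + 1) i1 j1 k1 * tt D (b + 1) (hN D b) (n - a) i2 j2 k2)
    (fun k => B ^ ef D (n + 1) k) (fun k => B ^ ef D (a + 1) k) (fun k => B ^ ef D (n - a) k) hx
  rw [hs] at key
  simp_rw [c1mul] at key
  rw [key, hv, tv, Finset.sum_mul_sum]
  refine Finset.sum_congr rfl fun k1 _ => Finset.sum_congr rfl fun k2 _ => ?_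
  ring

theorem sumL_mapL {α β : Type} (f : β → ℕ) (g : α → β) (l : List α) :
    sumL f (mapL g l) = sumL (fun a => f (g a)) l := by
  rw [sumL_eq, mapL_eq, List.map_map, sumL_eq]
  rfl

theorem newT_eq (hD : Good D) (b B : ℕ) {n : ℕ} (hn : n + 1 ≤ D.N) :
    newT (wts (b + 1) (n + 1) n 1) ((List.range D.N).map fun a => tab2 (a + 1) (hv D b B (a + 1)))
      ((List.range (n + 1)).map fun a => tab2 (n - a) (tv D b B (n - a))) (D.S.getD (n + 1) []) =
      tab2 (n + 1) (tv D b B (n + 1)) := by
  have hS : D.S.getD (n + 1) [] = (List.range (pn (n + 1))).map fun i =>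
      (List.range (n + 1)).map fun a => spf D (n + 1) a i := by
    rw [getD_list [] _ _ (hD.S _ hn)]
    apply List.map_congr_left
    intro i hi
    rw [getD_list [] _ _ (hD.S2 _ hn i (List.mem_range.1 hi))]
    rfl
  have hmin : min D.N (n + 1) = n + 1 := by omega
  rw [newT, hS, mapL_range, tab2]
  apply List.map_congr_left
  intro i hi
  change mapL _ _ = _
  rw [mapL_range]
  apply List.map_congr_left
  intro j hj
  rw [rowsOf, zipL_range', hmin, zipL_range, cell, zipL_range, wts_eq, dot_range, tv_succ hD b B hn]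
  refine Finset.sum_congr rfl fun a ha => ?_
  have ha' := Finset.mem_range.1 ha
  rw [one_mul]
  congr 1
  rw [sumL_mapL, sumL_sp hD hn ha' (List.mem_range.1 hi)]
  have hs : n + 1 - 1 - a = n - a := by omega
  rw [hs]
  apply c1_congr
  intro x hx y hy
  change cell3 (nth [] (tab2 (a + 1) (hv D b B (a + 1))) x) (nth [] (tab2 (n - a) (tv D b B (n - a))) y)
    (spf D (n + 1) a j) = _
  rw [tab2, tab2, nth_range _ _ _ hx, nth_range _ _ _ hy, cell3, sumL_sp hD hn ha' (List.mem_range.1 hj), hs]
  apply c1_congr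
  intro x' hx' y' hy'
  change Nat.mul (nth 0 _ x') (nth 0 _ y') = _
  rw [nth_range _ _ _ hx', nth_range _ _ _ hy']
  rfl

theorem build_eq (hD : Good D) (b B : ℕ) (m : ℕ) : ∀ n, n + m = D.N →
    build (b + 1) ((List.range D.N).map fun a => tab2 (a + 1) (hv D b B (a + 1)))
      (D.S.drop (n + 1)) n ((List.range (n + 1)).map fun a => tab2 (n - a) (tv D b B (n - a))) =
      (List.range (D.N + 1)).map fun a => tab2 (D.N - a) (tv D b B (D.N - a)) := by
  induction m with
  | zero =>
    intro n hn
    have : n = D.N := by omega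
    subst this
    rw [List.drop_eq_nil_of_le (by rw [hD.S0])]
    rfl
  | succ m ih =>
    intro n hn
    have hlen : n + 1 < D.S.length := by rw [hD.S0]; omega
    have h1 : D.S.drop (n + 1) = D.S.getD (n + 1) [] :: D.S.drop (n + 1 + 1) := by
      rw [List.drop_eq_getElem_cons hlen, List.getD_eq_getElem _ _ hlen]
    rw [h1]
    have h2 : ∀ (S : List (List (List (ℕ × ℕ)))) Ss Ts Hall, build (b + 1) Hall (S :: Ss) n Ts =
        build (b + 1) Hall Ss (n + 1) (newT (wts (b + 1) (n + 1) n 1) Hall Ts S :: Ts) := by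
      intros
      rfl
    rw [h2, newT_eq hD b B (by omega), ← ih (n + 1) (by omega)]
    congr 1
    rw [List.range_succ_eq_map (n := n + 1), List.map_cons, List.map_map]
    congr 1
    apply List.map_congr_left
    intro a _
    simp only [Function.comp, Nat.succ_eq_add_one, Nat.add_sub_add_right]

theorem pl_zero : pl 0 = [[]] := rfl

theorem allT_eq (hD : Good D) (b B : ℕ) :
    allT D b B = (List.range (D.N + 1)).map fun a => tab2 (D.N - a) (tv D b B (D.N - a)) := by
  rw [← build_eq hD b B D.N 0 (by omega), allT]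
  have h1 : mapL (fun a => hLev D b B (Nat.succ a)) (rng D.N) =
      (List.range D.N).map fun a => tab2 (a + 1) (hv D b B (a + 1)) := by
    rw [mapL_eq, rng_eq]
    apply List.map_congr_left
    intro a ha
    have := List.mem_range.1 ha
    rw [Nat.succ_eq_add_one, hLev_eq hD.toShape b B (by omega)]
  have he : ef D 0 0 = 0 := by
    have h0 := hD.ue 0 0 (by omega) 0 (by decide) 0 (by decide)
    have h1 := hD.ult 0 0 (by omega) 0 (by decide) 0 (by decide)
    have h2 : uf D 0 0 0 0 = 0 := by
      have h3 : pn (0 + 0) = 1 := by decide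
      omega
    rw [h2] at h0
    have h3 : ef D (0 + 0) 0 = ef D 0 0 := rfl
    omega
  have h2 : ([[[1]]] : List (List (List ℕ))) =
      (List.range (0 + 1)).map fun a => tab2 (0 - a) (tv D b B (0 - a)) := by
    have h3 : tab2 0 (tv D b B 0) = [[tv D b B 0 0 0]] := rfl
    have h4 : tv D b B 0 0 0 = 1 := by
      have h5 : pn 0 = 1 := rfl
      rw [tv, h5, Finset.sum_range_one, tt_zero, he]
      simp
    rw [h4] at h3
    change _ = [tab2 0 (tv D b B 0)]
    rw [h3]
  rw [h1, h2, List.drop_one]

/-- The sum of all values of `T`. -/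
noncomputable def ttot (D : Dat) (b n : ℕ) : ℕ :=
  ∑ i ∈ Finset.range (pn n), ∑ j ∈ Finset.range (pn n), tv D b 1 n i j

theorem c1_total (hD : Good D) {a m : ℕ} (ham : a + m ≤ D.N) (f : ℕ → ℕ → ℕ) :
    ∑ i ∈ Finset.range (pn (a + m)), c1 D a m f i =
      ∑ x ∈ Finset.range (pn a), ∑ y ∈ Finset.range (pn m), f x y := by
  have h := c1_sum hD ham f (fun _ => 1) (fun _ => 1) (fun _ => 1) (fun _ _ _ _ => rfl)
  simpa using h

theorem ttot_succ (hD : Good D) (b : ℕ) {n : ℕ} (hn : n + 1 ≤ D.N) :
    ttot D b (n + 1) = ∑ a ∈ Finset.range (n + 1), wt (b + 1) n a *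
      ((∑ i ∈ Finset.range (pn (a + 1)), ∑ j ∈ Finset.range (pn (a + 1)), hv D b 1 (a + 1) i j) *
        ttot D b (n - a)) := by
  rw [ttot]
  simp_rw [tv_succ hD b 1 hn]
  rw [Finset.sum_congr rfl (fun i _ => Finset.sum_comm), Finset.sum_comm]
  refine Finset.sum_congr rfl fun a ha => ?_
  have ha' := Finset.mem_range.1 ha
  have hs : a + 1 + (n - a) = n + 1 := by omega
  simp_rw [← Finset.mul_sum]
  congr 1
  have key := fun f => c1_total hD (a := a + 1) (m := n - a) (by omega) f
  rw [hs] at key
  have c1sum : ∀ (s : Finset ℕ) (f : ℕ → ℕ → ℕ → ℕ) (i : ℕ),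
      ∑ j ∈ s, c1 D (a + 1) (n - a) (f j) i = c1 D (a + 1) (n - a) (fun u v => ∑ j ∈ s, f j u v) i := by
    intro s f i
    simp_rw [c1]
    rw [Finset.sum_comm]
    refine Finset.sum_congr rfl fun u _ => ?_
    rw [Finset.sum_comm]
    refine Finset.sum_congr rfl fun v _ => ?_
    split_ifs <;> simp
  simp_rw [c1sum]
  rw [key]
  simp_rw [key]
  rw [ttot, Finset.sum_mul_sum]
  refine Finset.sum_congr rfl fun i1 _ => Finset.sum_congr rfl fun i2 _ => ?_
  rw [Finset.sum_mul_sum]

theorem htot_eq (hD : Shape D) (b : ℕ) {n : ℕ} (hn : n ≤ D.N) :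
    htot D b n = ∑ i ∈ Finset.range (pn n), ∑ j ∈ Finset.range (pn n), hv D b 1 n i j := by
  rw [htot, hLev_eq hD b 1 hn, tab2, sumL_range]
  refine Finset.sum_congr rfl fun i _ => ?_
  rw [sumL_range]

theorem tots_eq (hD : Good D) (b : ℕ) (n : ℕ) (hn : n ≤ D.N) :
    tots (b + 1) ((List.range D.N).map fun a => htot D b (a + 1)) n =
      (List.range (n + 1)).map fun a => ttot D b (n - a) := by
  induction n with
  | zero =>
    have he : ef D 0 0 = 0 := by
      have h0 := hD.ue 0 0 (by omega) 0 (by decide) 0 (by decide)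
      have h1 := hD.ult 0 0 (by omega) 0 (by decide) 0 (by decide)
      have h2 : uf D 0 0 0 0 = 0 := by
        have h3 : pn (0 + 0) = 1 := by decide
        omega
      rw [h2] at h0
      have h3 : ef D (0 + 0) 0 = ef D 0 0 := rfl
      omega
    have h5 : pn 0 = 1 := rfl
    have h6 : ttot D b 0 = 1 := by
      rw [ttot, h5, Finset.sum_range_one, Finset.sum_range_one, tv, h5, Finset.sum_range_one,
        tt_zero, he]
      simp
    change [1] = [ttot D b 0]
    rw [h6]
  | succ n ih =>
    have h1 : tots (b + 1) ((List.range D.N).map fun a => htot D b (a + 1)) (n + 1) =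
        dot (wts (b + 1) (n + 1) n 1) (zipL Nat.mul ((List.range D.N).map fun a => htot D b (a + 1))
          (tots (b + 1) ((List.range D.N).map fun a => htot D b (a + 1)) n)) ::
        tots (b + 1) ((List.range D.N).map fun a => htot D b (a + 1)) n := rfl
    have hmin : min D.N (n + 1) = n + 1 := by omega
    rw [h1, ih (by omega), zipL_range', hmin, wts_eq, dot_range,
      List.range_succ_eq_map (n := n + 1), List.map_cons, List.map_map]
    congr 1
    · change _ = ttot D b (n + 1)
      rw [ttot_succ hD b hn]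
      refine Finset.sum_congr rfl fun a ha => ?_
      have ha' := Finset.mem_range.1 ha
      rw [one_mul, htot_eq hD.toShape b (by omega)]
      rfl
    · apply List.map_congr_left
      intro a _
      simp only [Function.comp, Nat.succ_eq_add_one, Nat.add_sub_add_right]

end Pool.Agent.JackTab
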